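import Pool.Agent.LibSDCK.Criterion

/-!
# The algebraic case and the list of equivalent conditions
-/

namespace SDCK

universe u v

open Polynomial

/-- Lift a finite orthogonal family of idempotents inside the corner of `e`. -/
theorem exists_lift_family {A : Type u} [Ring A] [Algebra ℚ A] {H : Type v} [Ring H] (R : A →+* H)
    (B : Subalgebra ℚ A) (hB : ∀ b ∈ B, IsAlgebraic ℚ b) (n : ℕ) :
    ∀ (e : A) (_ : e * e = e) (_ : e ∈ B) (π : Fin (n + 1) → H) (_ : OrthogonalIdempotents π)
      (_ : ∑ i, π i = R e) (b : Fin (n + 1) → A) (_ : ∀ i, b i ∈ B) (_ : ∀ i, R (b i) = π i),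
      ∃ p : Fin (n + 1) → A, (∀ i, p i ∈ B) ∧ OrthogonalIdempotents p ∧ ∑ i, p i = e ∧
        ∀ i, R (p i) = π i := by
  induction n with
  | zero =>
    intro e he heB π hπ hsum b _ hb
    refine ⟨fun _ => e, fun _ => heB, ⟨fun _ => he, ?_⟩, by simp, ?_⟩
    · intro i j hij
      exact absurd (Fin.ext (by omega)) hij
    · intro i
      have : i = 0 := Fin.ext (by omega)
      rw [this, ← hsum]; simp
  | succ n ih =>
    intro e he heB π hπ hsum b hbB hb
    have h1 : R e * R (b 0) * R e = R (b 0) := by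
      rw [hb, ← hsum, Finset.sum_mul]
      simp only [hπ.mul_eq]
      simp [Finset.mul_sum, hπ.mul_eq]
    have h2 : R (b 0) * R (b 0) = R (b 0) := by
      rw [hb]; exact (hπ.idem 0).eq
    obtain ⟨p₀, hp₀B, hpp, hep, hpe, hRp⟩ := exists_lift_idem R B hB he heB (hbB 0) h1 h2
    rw [hb] at hRp
    have he' : (e - p₀) * (e - p₀) = e - p₀ := by
      rw [sub_mul, mul_sub, mul_sub, he, hep, hpe, hpp]; simp
    have hsum' : ∑ i : Fin (n + 1), π i.succ = R (e - p₀) := by
      have h3 := Fin.sum_univ_succ π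
      rw [map_sub, hRp, ← hsum, h3, add_sub_cancel_left]
    obtain ⟨q, hqB, hq, hqsum, hqR⟩ := ih (e - p₀) he' (B.sub_mem heB hp₀B) (fun i => π i.succ)
      ⟨fun i => hπ.idem _, fun i j hij => hπ.ortho (fun h => hij (Fin.succ_injective _ h))⟩
      hsum' (fun i => b i.succ) (fun i => hbB _) (fun i => hb _)
    have heq : ∀ i, (e - p₀) * q i = q i := by
      intro i
      rw [← hqsum, Finset.sum_mul]; simp [hq.mul_eq]
    have hqe : ∀ i, q i * (e - p₀) = q i := by
      intro i
      rw [← hqsum, Finset.mul_sum]; simp [hq.mul_eq]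
    have hpq : ∀ i, p₀ * q i = 0 := by
      intro i
      rw [← heq i, ← mul_assoc, mul_sub, hpe, hpp, sub_self, zero_mul]
    have hqp : ∀ i, q i * p₀ = 0 := by
      intro i
      rw [← hqe i, mul_assoc, sub_mul, hep, hpp, sub_self, mul_zero]
    refine ⟨Fin.cons p₀ q, ?_, ⟨?_, ?_⟩, ?_, ?_⟩
    · intro i
      refine Fin.cases ?_ (fun j => ?_) i
      · exact hp₀B
      · exact hqB j
    · intro i
      refine Fin.cases ?_ (fun j => ?_) i
      · exact hpp
      · exact hq.idem j
    · intro i j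
      refine Fin.cases ?_ (fun i => ?_) i <;> refine Fin.cases ?_ (fun j => ?_) j
      · intro h; exact absurd rfl h
      · intro _; exact hpq j
      · intro _; exact hqp i
      · intro h
        exact hq.ortho (fun h' => h (congrArg Fin.succ h'))
    · rw [Fin.sum_univ_succ]
      simp only [Fin.cons_zero, Fin.cons_succ]
      rw [hqsum]; abel
    · intro i
      refine Fin.cases ?_ (fun j => ?_) i
      · exact hRp
      · exact hqR j

namespace Corr

variable {d : ℕ} (X : Corr.{u, v} d)

theorem low_injective : Function.Injective (low : Fin d → Fin (2 * d + 1)) := by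
  intro i j h
  have h1 := congrArg Fin.val h
  exact Fin.ext h1

/-- If the lower half lies in a star-stable algebraic subalgebra, it can be changed so that
`e* e` becomes nilpotent. -/
theorem nilpotent_of_algebraic {p : Fin d → X.A} (hp : X.IsLowerCK p) (B : Subalgebra ℚ X.A)
    (hBs : ∀ b ∈ B, star b ∈ B) (hB : ∀ b ∈ B, IsAlgebraic ℚ b) (hpB : ∀ i, p i ∈ B) :
    ∃ q : Fin d → X.A, X.IsLowerCK q ∧ IsNilpotent (star (∑ i, q i) * ∑ i, q i) := by
  rcases d with _ | n
  · exact ⟨p, hp, by simp⟩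
  let e := ∑ i, p i
  let f := star e
  have he : e * e = e := sum_idem hp.1
  have hf : f * f = f := by rw [← star_mul, he]
  have heB : e ∈ B := B.sum_mem fun i _ => hpB i
  have hfB : f ∈ B := hBs e heB
  let c := e * f * e
  have hcB : c ∈ B := B.mul_mem (B.mul_mem heB hfB) heB
  obtain ⟨g, hg1, hg2⟩ := exists_split (hB c hcB)
  let ε := aeval c (Polynomial.X * g)
  have hεg : ε = c * aeval c g := by
    change aeval c (Polynomial.X * g) = _
    rw [map_mul, aeval_X]
  have hεg' : ε = aeval c g * c := by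
    change aeval c (Polynomial.X * g) = _
    rw [mul_comm, map_mul, aeval_X]
  have hec : e * c = c := by
    change e * (e * f * e) = e * f * e
    rw [← mul_assoc, ← mul_assoc, he]
  have hce : c * e = c := by
    change e * f * e * e = e * f * e
    rw [mul_assoc, he]
  have heε : e * ε = ε := by rw [hεg, ← mul_assoc, hec]
  have hεe : ε * e = ε := by rw [hεg', mul_assoc, hce]
  have hεB : ε ∈ B := aeval_mem_of_mem hcB _
  have hcε : c * ε = ε * c := by
    have h := (Commute.all (Polynomial.X : ℚ[X]) (Polynomial.X * g)).map (aeval c)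
    rw [aeval_X] at h
    exact h.eq
  have hRef : X.R e * X.R f = 0 := by
    rw [← map_mul]
    change X.R ((∑ i, p i) * star (∑ i, p i)) = 0
    rw [star_sum, Finset.sum_mul, map_sum]
    refine Finset.sum_eq_zero fun i _ => ?_
    rw [Finset.mul_sum, map_sum]
    exact Finset.sum_eq_zero fun j _ => R_mul_star hp i j
  have hRc : X.R c = 0 := by
    change X.R (e * f * e) = 0
    rw [map_mul, map_mul, hRef, zero_mul]
  have hRε : X.R ε = 0 := by rw [hεg, map_mul, hRc, zero_mul]
  let e₁ := e - ε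
  have he₁ : e₁ * e₁ = e₁ := by
    change (e - ε) * (e - ε) = e - ε
    rw [sub_mul, mul_sub, mul_sub, he, heε, hεe]
    change e - ε - (ε - ε * ε) = e - ε
    rw [hg1]; simp [ε]
  have he₁B : e₁ ∈ B := B.sub_mem heB hεB
  have hRe₁ : X.R e₁ = X.R e := by
    change X.R (e - ε) = _
    rw [map_sub, hRε, sub_zero]
  -- the key computation
  have hstarc : star c = f * e * f := by
    change star (e * star e * e) = _
    rw [star_mul, star_mul, star_star, ← mul_assoc]
  have hint : star c * (f * e) = f * e * c := by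
    rw [hstarc]
    change f * e * f * (f * e) = f * e * (e * f * e)
    calc f * e * f * (f * e) = f * e * (f * f) * e := by noncomm_ring
      _ = f * e * f * e := by rw [hf]
      _ = f * (e * e) * f * e := by rw [he]
      _ = f * e * (e * f * e) := by noncomm_ring
  have hstarε : star ε = aeval (star c) g * star c := by
    change star (aeval c (Polynomial.X * g)) = _
    rw [star_aeval, mul_comm, map_mul, aeval_X]
  have hstarce : star c * e = f * e * (f * e) := by
    rw [hstarc]; noncomm_ring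
  have hkey : e * star ε * e = ε * c := by
    rw [hstarε]
    calc e * (aeval (star c) g * star c) * e = e * (aeval (star c) g) * (star c * e) := by
          noncomm_ring
      _ = e * (aeval (star c) g * (f * e)) * (f * e) := by rw [hstarce]; noncomm_ring
      _ = e * ((f * e) * aeval c g) * (f * e) := by rw [aeval_mul_of_intertwine hint]
      _ = (e * f * e) * aeval c g * (f * e) := by noncomm_ring
      _ = ε * (f * e) := by rw [hεg]
      _ = (ε * e) * (f * e) := by rw [hεe]
      _ = ε * (e * f * e) := by noncomm_ring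
      _ = ε * c := rfl
  let f₁ := star e₁
  have hf₁ : f₁ = f - star ε := by
    change star (e - ε) = _
    rw [star_sub]
  have hee₁ : e₁ * e = e₁ := by
    change (e - ε) * e = e - ε
    rw [sub_mul, he, hεe]
  have hee₁' : e * e₁ = e₁ := by
    change e * (e - ε) = e - ε
    rw [mul_sub, he, heε]
  have hc₁ : e₁ * f₁ * e₁ = c * (1 - ε) := by
    have h1 : e * f₁ * e = c - ε * c := by
      rw [hf₁, mul_sub, sub_mul, hkey]
    calc e₁ * f₁ * e₁ = (e₁ * e) * f₁ * (e * e₁) := by rw [hee₁, hee₁']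
      _ = e₁ * (e * f₁ * e) * e₁ := by noncomm_ring
      _ = (e - ε) * (c - ε * c) * (e - ε) := by rw [h1]
      _ = (e * c - ε * c - e * ε * c + ε * ε * c) * (e - ε) := by noncomm_ring
      _ = (c - ε * c - ε * c + ε * c) * (e - ε) := by
          have : ε * ε = ε := hg1
          rw [hec, heε, this]
      _ = c * e - c * ε - ε * (c * e) + ε * (c * ε) := by noncomm_ring
      _ = c - c * ε := by
          have h2 : ε * ε = ε := hg1
          rw [hce, hcε, ← mul_assoc ε ε c, h2]; abel
      _ = c * (1 - ε) := by rw [mul_sub, mul_one]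
  have hnil : IsNilpotent (f₁ * e₁) := by
    have h0 : IsNilpotent (e₁ * f₁ * e₁) := by rw [hc₁]; exact hg2
    obtain ⟨N, hN⟩ := h0
    refine ⟨N + 1, ?_⟩
    have h1 : ∀ m : ℕ, (f₁ * e₁) ^ (m + 1) = f₁ * (e₁ * f₁ * e₁) ^ m * e₁ := by
      intro m
      induction m with
      | zero => simp
      | succ m ih =>
        rw [pow_succ, ih, pow_succ (e₁ * f₁ * e₁)]
        have h2 : e₁ * f₁ * e₁ * e₁ = e₁ * f₁ * e₁ := by rw [mul_assoc, he₁]
        calc f₁ * (e₁ * f₁ * e₁) ^ m * e₁ * (f₁ * e₁)
            = f₁ * ((e₁ * f₁ * e₁) ^ m * (e₁ * f₁ * e₁)) := by noncomm_ring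
          _ = f₁ * ((e₁ * f₁ * e₁) ^ m * (e₁ * f₁ * e₁ * e₁)) := by rw [h2]
          _ = f₁ * ((e₁ * f₁ * e₁) ^ m * (e₁ * f₁ * e₁)) * e₁ := by noncomm_ring
    rw [h1, hN, mul_zero, zero_mul]
  -- lift the family inside the corner of `e₁`
  have hsumR : ∑ i : Fin (n + 1), X.π (low i) = X.R e₁ := by
    rw [hRe₁]
    change _ = X.R (∑ i, p i)
    rw [map_sum]
    exact Finset.sum_congr rfl fun i _ => (hp.2 i).symm
  obtain ⟨q, -, hq, hqsum, hqR⟩ := exists_lift_family X.R B hB n e₁ he₁ he₁B
    (fun i => X.π (low i))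
    ⟨fun i => X.π_complete.idem _, fun i j hij => X.π_complete.ortho
      (fun h => hij (low_injective h))⟩ hsumR p hpB hp.2
  refine ⟨q, ⟨hq, hqR⟩, ?_⟩
  rw [hqsum]
  exact hnil

/-- The lower half of a self-dual Chow-Künneth decomposition is isotropic. -/
theorem lower_of_selfDual {P : Fin (2 * d + 1) → X.A} (hP : X.IsSelfDualCK P) :
    X.IsLowerCK (fun i => P (low i)) ∧ ∀ i j, star (P (low i)) * P (low j) = 0 := by
  refine ⟨⟨⟨fun i => hP.1.1.idem _, fun i j hij => hP.1.1.ortho fun h => hij (low_injective h)⟩,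
    fun i => hP.1.2 _⟩, fun i j => ?_⟩
  rw [hP.2]
  exact hP.1.1.ortho (Ne.symm (low_ne_rev j i))

/-- The span of a self-dual Chow-Künneth decomposition. -/
noncomputable def spanHom {P : Fin (2 * d + 1) → X.A} (hP : CompleteOrthogonalIdempotents P) :
    (Fin (2 * d + 1) → ℚ) →ₐ[ℚ] X.A :=
  AlgHom.ofLinearMap (Fintype.linearCombination ℚ P)
    (by simp [Fintype.linearCombination_apply, hP.complete])
    (by
      intro a b
      simp only [Fintype.linearCombination_apply, Finset.sum_mul, Finset.mul_sum, Pi.mul_apply,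
        smul_mul_smul_comm, hP.toOrthogonalIdempotents.mul_eq]
      simp)

/-- Equivalent conditions for the existence of a self-dual Chow-Künneth decomposition. -/
theorem criterion : List.TFAE [
    (∃ P, X.IsSelfDualCK P),
    (∃ p, X.IsLowerCK p ∧ ∀ i j, star (p i) * p j = 0),
    (∃ p, X.IsLowerCK p ∧ IsNilpotent (star (∑ i, p i) * ∑ i, p i)),
    (∃ p, X.IsLowerCK p ∧ ∃ v w : X.A, v * w = 1 ∧ w * v = 1 ∧
      (∀ i, X.R v * X.π (low i) = X.π (low i) * X.R v) ∧
      star v * v = 1 - star (∑ i, p i) * ∑ i, p i),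
    (∃ p, X.IsLowerCK p ∧ ∃ B : Subalgebra ℚ X.A, (∀ b ∈ B, star b ∈ B) ∧
      (∀ b ∈ B, IsAlgebraic ℚ b) ∧ ∀ i, p i ∈ B)] := by
  tfae_have 1 → 2 := by
    rintro ⟨P, hP⟩
    exact ⟨_, X.lower_of_selfDual hP⟩
  tfae_have 2 → 1 := by
    rintro ⟨p, hp, h⟩
    exact X.selfDual_of_isotropic hp h
  tfae_have 2 → 3 := by
    rintro ⟨p, hp, h⟩
    refine ⟨p, hp, ?_⟩
    have h0 : star (∑ i, p i) * ∑ i, p i = 0 := by
      rw [star_sum, Finset.sum_mul]
      refine Finset.sum_eq_zero fun i _ => ?_
      rw [Finset.mul_sum]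
      exact Finset.sum_eq_zero fun j _ => h i j
    rw [h0]; exact IsNilpotent.zero
  tfae_have 3 → 4 := by
    rintro ⟨p, hp, hn⟩
    obtain ⟨v, w, h1, h2, h3, h4⟩ := X.exists_norm_of_nilpotent hp hn
    exact ⟨p, hp, v, w, h1, h2, fun i => by rw [h3, one_mul, mul_one], h4⟩
  tfae_have 4 → 2 := by
    rintro ⟨p, hp, v, w, h1, h2, h3, h4⟩
    obtain ⟨h5, h6⟩ := X.isotropic_of_norm hp v w h1 h2 h4 h3
    exact ⟨_, h5, h6⟩
  tfae_have 5 → 3 := by
    rintro ⟨p, hp, B, h1, h2, h3⟩
    exact X.nilpotent_of_algebraic hp B h1 h2 h3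
  tfae_have 1 → 5 := by
    rintro ⟨P, hP⟩
    refine ⟨_, (X.lower_of_selfDual hP).1, (spanHom X hP.1.1).range, ?_, ?_, ?_⟩
    · rintro _ ⟨a, rfl⟩
      refine ⟨fun i => a i.rev, ?_⟩
      change Fintype.linearCombination ℚ P (fun i => a i.rev)
        = star (Fintype.linearCombination ℚ P a)
      rw [Fintype.linearCombination_apply, Fintype.linearCombination_apply, star_sum]
      rw [← Equiv.sum_comp Fin.revPerm]
      refine Finset.sum_congr rfl fun i _ => ?_
      rw [star_rat_smul, hP.2]
      simp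
    · rintro _ ⟨a, rfl⟩
      have h1 : IsIntegral ℚ a := Algebra.IsIntegral.isIntegral a
      exact (h1.map (spanHom X hP.1.1)).isAlgebraic
    · intro i
      refine ⟨Pi.single (low i) 1, ?_⟩
      change Fintype.linearCombination ℚ P (Pi.single (low i) 1) = _
      simp
  tfae_finish

end Corr

end SDCK
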