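import Mathlib

/-!
# Self-dual Chow-Künneth decompositions, formal part

`Corr d` collects the formal data attached to a smooth projective variety `X` of dimension `d`
that enter the definition of a (self-dual) Chow-Künneth decomposition.
-/

namespace SDCK

universe u v

/-- The data attached to a smooth projective variety `X` of pure dimension `d`:
`A` is the ring of correspondences of degree `0` on `X` with rational coefficients, `star` is the
transposition; `H` is the ring of graded endomorphisms (degree `0`) of the cohomology of `X`,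
`star` is the adjoint for the Poincaré duality pairing; `R` is the action on cohomology and
`π i` (`0 ≤ i ≤ 2d`) is the projector onto cohomology of degree `i`. -/
structure Corr (d : ℕ) where
  /-- correspondences of degree `0` -/
  A : Type u
  ringA : Ring A
  algA : Algebra ℚ A
  starA : StarRing A
  /-- graded endomorphisms of the cohomology -/
  H : Type v
  ringH : Ring H
  starH : StarRing H
  /-- the action on cohomology -/
  R : A →+* H
  R_star : ∀ a : A, R (star a) = star (R a)
  /-- the Künneth projectors -/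
  π : Fin (2 * d + 1) → H
  π_complete : CompleteOrthogonalIdempotents π
  π_star : ∀ i, star (π i) = π i.rev

attribute [instance] Corr.ringA Corr.algA Corr.starA Corr.ringH Corr.starH

namespace Corr

variable {d : ℕ} (X : Corr.{u, v} d)

/-- A Chow-Künneth decomposition: orthogonal idempotents with sum `1` lifting the Künneth
projectors. -/
def IsCK (p : Fin (2 * d + 1) → X.A) : Prop :=
  CompleteOrthogonalIdempotents p ∧ ∀ i, X.R (p i) = X.π i

/-- A self-dual Chow-Künneth decomposition: the transpose of `p i` is `p (2d - i)`. -/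
def IsSelfDualCK (p : Fin (2 * d + 1) → X.A) : Prop :=
  X.IsCK p ∧ ∀ i, star (p i) = p i.rev

/-- The degree `i < d` as an element of `{0, …, 2d}`. -/
def low (i : Fin d) : Fin (2 * d + 1) := ⟨i, by omega⟩

/-- Orthogonal idempotents lifting the Künneth projectors of degrees `0, …, d - 1`. -/
def IsLowerCK (p : Fin d → X.A) : Prop :=
  OrthogonalIdempotents p ∧ ∀ i, X.R (p i) = X.π (low i)

end Corr

/-! ### algebra -/

section algebra

variable {A : Type u} [Ring A] [Algebra ℚ A] [StarRing A]

open Polynomial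

theorem star_aeval (x : A) (f : ℚ[X]) : star (aeval x f) = aeval (star x) f := by
  rw [aeval_eq_sum_range, aeval_eq_sum_range, star_sum]
  refine Finset.sum_congr rfl fun i _ => ?_
  rw [star_rat_smul, star_pow]

/-- Square roots of `1 - X` modulo `X ^ (N + 1)`. -/
theorem exists_sqrt (N : ℕ) : ∃ s : ℚ[X], s.coeff 0 = 1 ∧ X ^ (N + 1) ∣ s ^ 2 - (1 - X) := by
  induction N with
  | zero => exact ⟨1, by simp, by simp⟩
  | succ N ih =>
    obtain ⟨s, hs, t, ht⟩ := ih
    obtain ⟨r, hr⟩ : (X : ℚ[X]) ∣ 1 - s := by
      rw [X_dvd_iff]; simp [hs]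
    refine ⟨s - C (1 / 2 : ℚ) * (X ^ (N + 1) * t), ?_, ?_⟩
    · rw [coeff_sub, hs, coeff_C_mul, mul_coeff_zero, coeff_X_pow]
      simp
    · have hC : (C (1 / 2 : ℚ) : ℚ[X]) * 2 = 1 := by
        rw [show (2 : ℚ[X]) = C 2 from rfl, ← C_mul]; norm_num
      refine ⟨t * r + C (1 / 2 : ℚ) ^ 2 * (X ^ N * t ^ 2), ?_⟩
      have h1 : (s - C (1 / 2 : ℚ) * (X ^ (N + 1) * t)) ^ 2 - (1 - X)
          = (s ^ 2 - (1 - X)) - (C (1 / 2 : ℚ) * 2) * (s * (X ^ (N + 1) * t))
            + C (1 / 2 : ℚ) ^ 2 * (X ^ (N + 1) * t) ^ 2 := by ring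
      rw [h1, ht, hC]
      have h2 : X ^ (N + 1) * t - 1 * (s * (X ^ (N + 1) * t))
          = X ^ (N + 1) * t * (1 - s) := by ring
      rw [h2, hr]
      ring

/-- A self-adjoint nilpotent `g` has a self-adjoint square root of `1 - g`, polynomial in `g`. -/
theorem exists_sqrt_one_sub {g : A} (hg : IsNilpotent g) (hgs : star g = g) :
    ∃ s : ℚ[X], s.coeff 0 = 1 ∧ star (aeval g s) = aeval g s ∧
      aeval g s * aeval g s = 1 - g ∧ IsUnit (aeval g s) := by
  obtain ⟨N, hN⟩ := hg
  obtain ⟨s, hs, t, ht⟩ := exists_sqrt N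
  have h1 : aeval g s * aeval g s = 1 - g := by
    have h2 := congrArg (aeval g) ht
    have h3 : g ^ (N + 1) = 0 := by rw [pow_succ, hN, zero_mul]
    simp only [map_sub, map_pow, map_mul, aeval_X, map_one, h3, zero_mul] at h2
    rw [sub_eq_zero, pow_two] at h2
    exact h2
  refine ⟨s, hs, ?_, h1, ?_⟩
  · rw [star_aeval, hgs]
  · have h2 : IsUnit (1 - g) := IsNilpotent.isUnit_one_sub ⟨N, hN⟩
    rw [← h1] at h2
    exact ((Commute.refl (aeval g s)).isUnit_mul_iff.1 h2).1

end algebra

end SDCK
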