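import Pool.Agent.LibSDCK.Algebraic

/-!
# Cancellation of summands with nilpotent homologically trivial endomorphisms

`OrthoSum X N Y` says that (the formal data of) `Y` is the orthogonal direct sum of `X` and `N`,
for instance `Y` a blow-up of `X`, `N` the sum of the twists of the motive of the centre.
If the homologically trivial endomorphisms of `N` are nilpotent, then every (self-dual)
Chow-Künneth decomposition of `Y` is conjugate (isometric) to the sum of one of `X` and one of `N`.
-/

namespace SDCK

universe u v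

open Polynomial

/-! ### algebra -/

section algebra

variable {A : Type u} [Ring A] [Algebra ℚ A]

theorem exists_sqrt_one_sub' {g : A} (hg : IsNilpotent g) :
    ∃ s : ℚ[X], s.coeff 0 = 1 ∧ aeval g s * aeval g s = 1 - g ∧ IsUnit (aeval g s) := by
  obtain ⟨N, hN⟩ := hg
  obtain ⟨s, hs, t, ht⟩ := exists_sqrt N
  have h1 : aeval g s * aeval g s = 1 - g := by
    have h2 := congrArg (aeval g) ht
    have h3 : g ^ (N + 1) = 0 := by rw [pow_succ, hN, zero_mul]
    simp only [map_sub, map_pow, map_mul, aeval_X, map_one, h3, zero_mul] at h2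
    rw [sub_eq_zero, pow_two] at h2
    exact h2
  refine ⟨s, hs, h1, ?_⟩
  have h2 : IsUnit (1 - g) := IsNilpotent.isUnit_one_sub ⟨N, hN⟩
  rw [← h1] at h2
  exact ((Commute.refl (aeval g s)).isUnit_mul_iff.1 h2).1

/-- An inverse square root of `1 - n`, `n` nilpotent. -/
theorem exists_invsqrt {H : Type v} [Ring H] (R : A →+* H) {n : A} (hn : IsNilpotent n)
    (hR : R n = 0) :
    ∃ r : A, r * r * (1 - n) = 1 ∧ R r = 1 ∧ (∀ a : A, n * a = a * n → r * a = a * r) ∧
      (∀ _ : StarRing A, star n = n → star r = r) := by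
  obtain ⟨s, hs, h1, h2⟩ := exists_sqrt_one_sub' hn
  obtain ⟨w, hw⟩ := h2
  have hRa : R (aeval n s) = 1 := by
    obtain ⟨t, ht⟩ : (Polynomial.X : ℚ[X]) ∣ s - 1 := by
      rw [X_dvd_iff]; simp [hs]
    have h4 : s = 1 + Polynomial.X * t := by rw [← ht]; ring
    rw [h4, map_add, map_one, map_mul, aeval_X, map_add, map_one, map_mul, hR, zero_mul, add_zero]
  have hwr : (w : A) * ((w⁻¹ : Aˣ) : A) = 1 := w.mul_inv
  have hrw : ((w⁻¹ : Aˣ) : A) * (w : A) = 1 := w.inv_mul
  refine ⟨((w⁻¹ : Aˣ) : A), ?_, ?_, fun a ha => ?_, fun _ hst => ?_⟩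
  · rw [← h1, ← hw]
    calc ((w⁻¹ : Aˣ) : A) * ((w⁻¹ : Aˣ) : A) * ((w : A) * (w : A))
        = ((w⁻¹ : Aˣ) : A) * (((w⁻¹ : Aˣ) : A) * (w : A)) * (w : A) := by noncomm_ring
      _ = 1 := by rw [hrw, mul_one, hrw]
  · have h3 : R (((w⁻¹ : Aˣ) : A)) * R (w : A) = 1 := by rw [← map_mul, hrw, map_one]
    rwa [hw, hRa, mul_one] at h3
  · have h3 : (w : A) * a = a * w := by
      rw [hw, aeval_eq_sum_range, Finset.sum_mul, Finset.mul_sum]
      refine Finset.sum_congr rfl fun i _ => ?_
      have h4 : Commute n a := ha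
      rw [smul_mul_assoc, mul_smul_comm, (h4.pow_left i).eq]
    calc ((w⁻¹ : Aˣ) : A) * a = ((w⁻¹ : Aˣ) : A) * (a * (w : A)) * ((w⁻¹ : Aˣ) : A) := by
          rw [mul_assoc, mul_assoc a, hwr, mul_one]
      _ = (((w⁻¹ : Aˣ) : A) * (w : A)) * a * ((w⁻¹ : Aˣ) : A) := by rw [← h3]; noncomm_ring
      _ = a * ((w⁻¹ : Aˣ) : A) := by rw [hrw, one_mul]
  · have h3 : star (w : A) = w := by rw [hw, star_aeval, hst]
    have h4 : star ((w⁻¹ : Aˣ) : A) * (w : A) = 1 := by
      have h5 := congrArg star hwr
      rwa [star_mul, h3, star_one] at h5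
    calc star ((w⁻¹ : Aˣ) : A) = star ((w⁻¹ : Aˣ) : A) * ((w : A) * ((w⁻¹ : Aˣ) : A)) := by
          rw [hwr, mul_one]
      _ = (star ((w⁻¹ : Aˣ) : A) * (w : A)) * ((w⁻¹ : Aˣ) : A) := by rw [mul_assoc]
      _ = ((w⁻¹ : Aˣ) : A) := by rw [h4, one_mul]

theorem isNilpotent_swap {A : Type u} [Ring A] {a b : A} (h : IsNilpotent (b * a)) :
    IsNilpotent (a * b) := by
  obtain ⟨n, hn⟩ := h
  refine ⟨n + 1, ?_⟩
  have key : ∀ m : ℕ, (a * b) ^ (m + 1) = a * (b * a) ^ m * b := by
    intro m
    induction m with
    | zero => simp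
    | succ m ih =>
      rw [pow_succ, ih, pow_succ (b * a)]
      noncomm_ring
  rw [key, hn, mul_zero, zero_mul]

omit [Algebra ℚ A] in
/-- The difference of two idempotents, one of which is a small deformation of the other. -/
theorem isNilpotent_sq_sub {H : Type v} [Ring H] (R : A →+* H) {e y y' : A} (he : e * e = e)
    (hye : y * e = y) (hey : e * y' = y') (hy : y' * y = e) (hRy : R y = R e) (hRy' : R y' = R e)
    (hnil : ∀ a : A, e * a * e = a → R a = 0 → IsNilpotent a) :
    IsNilpotent ((e - y * y') * (e - y * y')) := by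
  have hRe : R e * R e = R e := by rw [← map_mul, he]
  have he'' : (y * y') * (y * y') = y * y' := by
    calc (y * y') * (y * y') = y * (y' * y) * y' := by noncomm_ring
      _ = y * y' := by rw [hy, hye]
  set e' := y * y' with he'
  have hRe' : R e' = R e := by rw [he', map_mul, hRy, hRy', hRe]
  -- the `e`-corner
  have h1 : IsNilpotent (e - e * e' * e) := by
    refine hnil _ ?_ ?_
    · calc e * (e - e * e' * e) * e = (e * e) * e - (e * e) * e' * (e * e) := by noncomm_ring
        _ = e - e * e' * e := by rw [he, he]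
    · rw [map_sub, map_mul, map_mul, hRe', hRe, hRe, sub_self]
  -- the other corner
  have h2 : IsNilpotent ((1 - e) * e' * (1 - e)) := by
    have h3 : IsNilpotent ((y' * (1 - e)) * ((1 - e) * y)) := by
      refine hnil _ ?_ ?_
      · calc e * (y' * (1 - e) * ((1 - e) * y)) * e
            = (e * y') * (1 - e) * (1 - e) * (y * e) := by noncomm_ring
          _ = y' * (1 - e) * ((1 - e) * y) := by rw [hye, hey]; noncomm_ring
      · have h4 : (1 - e) * ((1 - e) * y) = (1 - e) * y := by
          rw [← mul_assoc, sub_mul 1 e (1 - e), one_mul, mul_sub, mul_one, he, sub_self, sub_zero]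
        rw [mul_assoc, h4, map_mul, map_mul, map_sub, map_one, hRy, hRy', sub_mul, one_mul, hRe,
          sub_self, mul_zero]
    have h4 := isNilpotent_swap h3
    have h5 : (1 - e) * y * (y' * (1 - e)) = (1 - e) * e' * (1 - e) := by
      rw [he']; noncomm_ring
    rwa [h5] at h4
  have h6 : (e - e') * (e - e') = (e - e * e' * e) + (1 - e) * e' * (1 - e) := by
    have h7 : (e - e') * (e - e') = e * e - e * e' - e' * e + e' * e' := by noncomm_ring
    rw [h7, he, he'']
    noncomm_ring
  rw [h6]
  refine Commute.isNilpotent_add ?_ h1 h2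
  have h8 : (e - e * e' * e) * ((1 - e) * e' * (1 - e)) = 0 := by
    have h9 : (e - e * e' * e) * (1 - e) = 0 := by
      calc (e - e * e' * e) * (1 - e) = e - e * e - e * e' * (e - e * e) := by noncomm_ring
        _ = 0 := by rw [he]; simp
    rw [← mul_assoc, ← mul_assoc, h9, zero_mul, zero_mul]
  have h9 : (1 - e) * e' * (1 - e) * (e - e * e' * e) = 0 := by
    have h10 : (1 - e) * (e - e * e' * e) = 0 := by
      calc (1 - e) * (e - e * e' * e) = e - e * e - (e - e * e) * e' * e := by noncomm_ring
        _ = 0 := by rw [he]; simp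
    rw [mul_assoc, h10, mul_zero]
  show _ * _ = _ * _
  rw [h8, h9]

/-- Main lemma: a family `P` of orthogonal idempotents can be conjugated such that it commutes
with `e = ∑ c i`, where the `c i` are orthogonal idempotents with the same image as `e P i`. -/
theorem exists_conj {H : Type v} [Ring H] (R : A →+* H) {ι : Type} [Fintype ι] [DecidableEq ι]
    (P c : ι → A) (hP : CompleteOrthogonalIdempotents P) (hc : OrthogonalIdempotents c)
    (e : A) (hsum : ∑ i, c i = e)
    (hR1 : ∀ i, R (c i) = R e * R (P i)) (hR2 : ∀ i, R (c i) = R (P i) * R e)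
    (hnil : ∀ a : A, e * a * e = a → R a = 0 → IsNilpotent a) :
    ∃ g h : A, g * h = 1 ∧ h * g = 1 ∧ R g = 1 ∧ R h = 1 ∧
      (∀ i, e * (g * P i * h) = (g * P i * h) * e) ∧
      (∀ _ : StarRing A, ∀ σ : Equiv.Perm ι, (∀ i, star (P i) = P (σ i)) →
        (∀ i, star (c i) = c (σ i)) → h = star g) := by
  have hcc : ∀ i j, c i * c j = if i = j then c i else 0 := hc.mul_eq
  have hPP : ∀ i j, P i * P j = if i = j then P i else 0 := hP.mul_eq
  have hec : ∀ i, e * c i = c i := by
    intro i
    rw [← hsum, Finset.sum_mul]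
    simp [hcc]
  have hce : ∀ i, c i * e = c i := by
    intro i
    rw [← hsum, Finset.mul_sum]
    simp [hcc]
  have he : e * e = e := by
    conv_lhs => rw [← hsum, Finset.sum_mul]
    rw [hsum]
    simp only [hce]
    exact hsum
  have hRe : R e * R e = R e := by rw [← map_mul, he]
  set x := ∑ i, P i * c i with hx
  set x' := ∑ i, c i * P i with hx'
  have hxc : ∀ k, x * c k = P k * c k := by
    intro k
    rw [hx, Finset.sum_mul]
    simp [mul_assoc, hcc]
  have hcx' : ∀ k, c k * x' = c k * P k := by
    intro k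
    rw [hx', Finset.mul_sum]
    simp [← mul_assoc, hcc]
  have hPx : ∀ k, P k * x = P k * c k := by
    intro k
    rw [hx, Finset.mul_sum]
    simp [← mul_assoc, hPP]
  have hx'P : ∀ k, x' * P k = c k * P k := by
    intro k
    rw [hx', Finset.sum_mul]
    simp [mul_assoc, hPP]
  have hxe : x * e = x := by
    rw [hx, Finset.sum_mul]
    simp [mul_assoc, hce]
  have hex' : e * x' = x' := by
    rw [hx', Finset.mul_sum]
    simp [← mul_assoc, hec]
  have hw : x' * x = ∑ i, c i * P i * c i := by
    rw [hx', Finset.sum_mul]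
    refine Finset.sum_congr rfl fun i _ => ?_
    rw [mul_assoc, hPx, ← mul_assoc]
  have hew : e * (x' * x) = x' * x := by rw [← mul_assoc, hex']
  have hwe : (x' * x) * e = x' * x := by rw [mul_assoc, hxe]
  have hwc : ∀ k, (x' * x) * c k = c k * (x' * x) := by
    intro k
    calc (x' * x) * c k = (x' * P k) * c k := by rw [mul_assoc, hxc, ← mul_assoc]
      _ = c k * (P k * c k) := by rw [hx'P, mul_assoc]
      _ = (c k * x') * x := by rw [hcx', mul_assoc, hPx]
      _ = c k * (x' * x) := by rw [mul_assoc]
  set n := e - x' * x with hn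
  have hen : e * n = n := by rw [hn, mul_sub, he, hew]
  have hne : n * e = n := by rw [hn, sub_mul, he, hwe]
  have hRPP : ∀ i, R (P i) * R (P i) = R (P i) := by
    intro i
    rw [← map_mul, hPP, if_pos rfl]
  have hRsum : ∑ i, R (c i) = R e := by rw [← map_sum, hsum]
  have hRx : R x = R e := by
    rw [hx, map_sum, ← hRsum]
    refine Finset.sum_congr rfl fun i _ => ?_
    rw [map_mul, hR2, ← mul_assoc, hRPP]
  have hRx' : R x' = R e := by
    rw [hx', map_sum, ← hRsum]
    refine Finset.sum_congr rfl fun i _ => ?_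
    rw [map_mul, hR1, mul_assoc, hRPP]
  have hRn : R n = 0 := by rw [hn, map_sub, map_mul, hRx, hRx', hRe, sub_self]
  have hnn : IsNilpotent n := hnil n (by rw [hen, hne]) hRn
  obtain ⟨r, hr1, hRr, hrc, hrs⟩ := exists_invsqrt R hnn hRn
  have hre : r * e = e * r := hrc e (by rw [hen, hne])
  have hrck : ∀ k, r * c k = c k * r := by
    intro k
    apply hrc
    rw [hn, sub_mul, mul_sub, hec, hce, hwc]
  have hrw : r * (x' * x) = (x' * x) * r := by
    apply hrc
    have h1 : x' * x = e - n := by rw [hn]; abel
    have h2 : n * (e - n) = (e - n) * n := by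
      have a1 : n * (e - n) = n * e - n * n := mul_sub n e n
      have a2 : (e - n) * n = e * n - n * n := sub_mul e n n
      rw [a1, a2, hen, hne]
    rw [h1]
    exact h2
  set y := x * r with hy
  set y' := r * x' with hy'
  have hyy : y' * y = e := by
    calc y' * y = r * (x' * x) * r := by rw [hy, hy']; noncomm_ring
      _ = (x' * x) * (r * r) := by rw [hrw, mul_assoc]
      _ = (r * r) * (x' * x) := by
        rw [← mul_assoc, ← hrw, mul_assoc, ← hrw, ← mul_assoc]
      _ = (r * r) * ((1 - n) * e) := by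
        congr 1
        rw [sub_mul, one_mul, hne, hn]; abel
      _ = e := by rw [← mul_assoc, hr1, one_mul]
  have hye : y * e = y := by rw [hy, mul_assoc, hre, ← mul_assoc, hxe]
  have hey : e * y' = y' := by rw [hy', ← mul_assoc, ← hre, mul_assoc, hex']
  have hRy : R y = R e := by rw [hy, map_mul, hRx, hRr, mul_one]
  have hRy' : R y' = R e := by rw [hy', map_mul, hRx', hRr, one_mul]
  have hTnil := isNilpotent_sq_sub R he hye hey hyy hRy hRy' hnil
  have he'' : (y * y') * (y * y') = y * y' := by
    calc (y * y') * (y * y') = y * (y' * y) * y' := by noncomm_ring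
      _ = y * y' := by rw [hyy, hye]
  have he'P : ∀ k, (y * y') * P k = P k * (y * y') := by
    intro k
    have h1 : (y * y') * P k = P k * c k * (r * r) * P k := by
      calc (y * y') * P k = x * (r * (r * (x' * P k))) := by
            rw [hy, hy']; noncomm_ring
        _ = x * (r * (r * c k)) * P k := by rw [hx'P]; noncomm_ring
        _ = x * (r * (c k * r)) * P k := by rw [hrck]
        _ = x * ((r * c k) * r) * P k := by rw [← mul_assoc r]
        _ = x * c k * (r * r) * P k := by rw [hrck]; noncomm_ring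
        _ = P k * c k * (r * r) * P k := by rw [hxc]
    have h2 : P k * (y * y') = P k * c k * (r * r) * P k := by
      calc P k * (y * y') = (P k * x) * r * r * x' := by rw [hy, hy']; simp only [mul_assoc]
        _ = P k * (c k * r) * r * x' := by rw [hPx]; simp only [mul_assoc]
        _ = P k * (r * c k) * r * x' := by rw [← hrck]
        _ = P k * r * (c k * r) * x' := by simp only [mul_assoc]
        _ = P k * r * (r * c k) * x' := by rw [← hrck]
        _ = P k * (r * r) * (c k * x') := by simp only [mul_assoc]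
        _ = P k * (r * (r * c k)) * P k := by rw [hcx']; simp only [mul_assoc]
        _ = P k * ((r * c k) * r) * P k := by rw [hrck, ← mul_assoc r, hrck]
        _ = P k * c k * (r * r) * P k := by rw [hrck]; simp only [mul_assoc]
    rw [h1, h2]
  set e' := y * y' with he'
  have hRe' : R e' = R e := by rw [he', map_mul, hRy, hRy', hRe]
  have hRT : R ((e - e') * (e - e')) = 0 := by
    rw [map_mul, map_sub, hRe', sub_self, zero_mul]
  obtain ⟨ρ, hρ1, hRρ, hρc, hρs⟩ := exists_invsqrt R hTnil hRT
  have hTe : (e - e') * (e - e') * e = e * ((e - e') * (e - e')) := by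
    have h1 : (e - e') * (e - e') = e * e - e * e' - e' * e + e' * e' := by noncomm_ring
    rw [h1, he, he'']
    have h2 : (e - e * e' - e' * e + e') * e = e * e - e * e' * e - e' * (e * e) + e' * e := by
      noncomm_ring
    have h3 : e * (e - e * e' - e' * e + e') = e * e - (e * e) * e' - e * e' * e + e * e' := by
      noncomm_ring
    rw [h2, h3, he]
    abel
  have hTe' : (e - e') * (e - e') * e' = e' * ((e - e') * (e - e')) := by
    have h1 : (e - e') * (e - e') = e * e - e * e' - e' * e + e' * e' := by noncomm_ring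
    rw [h1, he, he'']
    have h2 : (e - e * e' - e' * e + e') * e' = e * e' - e * (e' * e') - e' * e * e' + e' * e' := by
      noncomm_ring
    have h3 : e' * (e - e * e' - e' * e + e') = e' * e - e' * e * e' - (e' * e') * e + e' * e' := by
      noncomm_ring
    rw [h2, h3, he'']
    abel
  have hρe : ρ * e = e * ρ := hρc e hTe
  have hρe' : ρ * e' = e' * ρ := hρc e' hTe'
  set u := e' * e + (1 - e') * (1 - e) with hu
  set w := e * e' + (1 - e) * (1 - e') with hw'
  have hρu : ρ * u = u * ρ := by
    have h1 : ρ * (e' * e) = e' * e * ρ := by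
      rw [← mul_assoc, hρe', mul_assoc, hρe, ← mul_assoc]
    rw [hu, mul_add, add_mul, h1]
    congr 1
    have h2 : (1 - e') * (1 - e) = 1 - e' - e + e' * e := by noncomm_ring
    rw [h2, mul_add, add_mul, mul_sub, mul_sub, sub_mul, sub_mul, h1, hρe, hρe', mul_one, one_mul]
  have hρw : ρ * w = w * ρ := by
    have h1 : ρ * (e * e') = e * e' * ρ := by
      rw [← mul_assoc, hρe, mul_assoc, hρe', ← mul_assoc]
    rw [hw', mul_add, add_mul, h1]
    congr 1
    have h2 : (1 - e) * (1 - e') = 1 - e - e' + e * e' := by noncomm_ring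
    rw [h2, mul_add, add_mul, mul_sub, mul_sub, sub_mul, sub_mul, h1, hρe, hρe', mul_one, one_mul]
  have huw : u * w = 1 - (e - e') * (e - e') := by
    have h1 : u * w = e' * (e * e) * e' + e' * (e - e * e) * (1 - e') +
        (1 - e') * (e - e * e) * e' + (1 - e') * (1 - e - (e - e * e)) * (1 - e') := by
      rw [hu, hw']; noncomm_ring
    have h2 : (e - e') * (e - e') = e * e - e * e' - e' * e + e' * e' := by noncomm_ring
    rw [h1, h2, he, he'']
    simp only [sub_self, sub_zero, mul_zero, zero_mul, add_zero]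
    have h3 : (1 - e') * (1 - e) * (1 - e') =
        1 - e - e' - (e' - e' * e') + e * e' + e' * e - e' * e * e' := by noncomm_ring
    rw [h3, he'']
    abel
  have hwu : w * u = 1 - (e - e') * (e - e') := by
    have h1 : w * u = e * (e' * e') * e + e * (e' - e' * e') * (1 - e) +
        (1 - e) * (e' - e' * e') * e + (1 - e) * (1 - e' - (e' - e' * e')) * (1 - e) := by
      rw [hu, hw']; noncomm_ring
    have h2 : (e - e') * (e - e') = e * e - e * e' - e' * e + e' * e' := by noncomm_ring
    rw [h1, h2, he, he'']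
    simp only [sub_self, sub_zero, mul_zero, zero_mul, add_zero]
    have h3 : (1 - e) * (1 - e') * (1 - e) =
        1 - e' - e - (e - e * e) + e' * e + e * e' - e * e' * e := by noncomm_ring
    rw [h3, he]
    abel
  have hue : u * e = e' * u := by
    have h1 : u * e = e' * (e * e) + (1 - e') * (e - e * e) := by rw [hu]; noncomm_ring
    have h2 : e' * u = (e' * e') * e + (e' - e' * e') * (1 - e) := by rw [hu]; noncomm_ring
    rw [h1, h2, he, he'', sub_self, sub_self, mul_zero, zero_mul]
  have hew' : e * w = w * e' := by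
    have h1 : e * w = (e * e) * e' + (e - e * e) * (1 - e') := by rw [hw']; noncomm_ring
    have h2 : w * e' = e * (e' * e') + (1 - e) * (e' - e' * e') := by rw [hw']; noncomm_ring
    rw [h1, h2, he, he'', sub_self, sub_self, mul_zero, zero_mul]
  refine ⟨w * ρ, u * ρ, ?_, ?_, ?_, ?_, fun i => ?_, fun inst σ hsP hsc => ?_⟩
  · calc w * ρ * (u * ρ) = w * (ρ * u) * ρ := by noncomm_ring
      _ = w * u * (ρ * ρ) := by rw [hρu]; noncomm_ring
      _ = ρ * ρ * (1 - (e - e') * (e - e')) := by
        rw [hwu]
        have h1 : ρ * (1 - (e - e') * (e - e')) = (1 - (e - e') * (e - e')) * ρ := by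
          rw [← hwu, ← mul_assoc, hρw, mul_assoc, hρu, ← mul_assoc]
        rw [← mul_assoc, ← h1, mul_assoc, ← h1, ← mul_assoc]
      _ = 1 := hρ1
  · calc u * ρ * (w * ρ) = u * (ρ * w) * ρ := by noncomm_ring
      _ = u * w * (ρ * ρ) := by rw [hρw]; noncomm_ring
      _ = ρ * ρ * (1 - (e - e') * (e - e')) := by
        rw [huw]
        have h1 : ρ * (1 - (e - e') * (e - e')) = (1 - (e - e') * (e - e')) * ρ := by
          rw [← huw, ← mul_assoc, hρu, mul_assoc, hρw, ← mul_assoc]
        rw [← mul_assoc, ← h1, mul_assoc, ← h1, ← mul_assoc]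
      _ = 1 := hρ1
  · have h2 : R w = R e * R e' + (1 - R e) * (1 - R e') := by
      rw [hw', map_add, map_mul R e e', map_mul R (1 - e), map_sub, map_sub, map_one]
    have h1 : (1 - R e) * (1 - R e) = 1 - R e - (R e - R e * R e) := by noncomm_ring
    rw [map_mul, hRρ, mul_one, h2, hRe', h1, hRe]
    abel
  · have h2 : R u = R e' * R e + (1 - R e') * (1 - R e) := by
      rw [hu, map_add, map_mul R e' e, map_mul R (1 - e'), map_sub, map_sub, map_one]
    have h1 : (1 - R e) * (1 - R e) = 1 - R e - (R e - R e * R e) := by noncomm_ring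
    rw [map_mul, hRρ, mul_one, h2, hRe', h1, hRe]
    abel
  · calc e * (w * ρ * P i * (u * ρ)) = (e * w) * ρ * P i * u * ρ := by noncomm_ring
      _ = w * (e' * ρ) * P i * u * ρ := by rw [hew']; noncomm_ring
      _ = w * ρ * (e' * P i) * u * ρ := by rw [← hρe']; noncomm_ring
      _ = w * ρ * P i * (e' * u) * ρ := by rw [he'P]; noncomm_ring
      _ = w * ρ * P i * u * (e * ρ) := by rw [← hue]; noncomm_ring
      _ = w * ρ * P i * (u * ρ) * e := by rw [← hρe]; noncomm_ring
  · have hse : star e = e := by
      rw [← hsum, star_sum]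
      simp only [hsc]
      exact Equiv.sum_comp σ c
    have hsx : star x = x' := by
      rw [hx, star_sum]
      simp only [star_mul, hsc, hsP]
      exact Equiv.sum_comp σ (fun i => c i * P i)
    have hsx' : star x' = x := by rw [← hsx, star_star]
    have hsn : star n = n := by rw [hn, star_sub, star_mul, hsx, hsx', hse]
    have hsr : star r = r := hrs inst hsn
    have hsy : star y = y' := by rw [hy, star_mul, hsx, hsr]
    have hsy' : star y' = y := by rw [← hsy, star_star]
    have hse' : star e' = e' := by rw [he', star_mul, hsy, hsy']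
    have hsT : star ((e - e') * (e - e')) = (e - e') * (e - e') := by
      rw [star_mul, star_sub, hse, hse']
    have hsρ : star ρ = ρ := hρs inst hsT
    have hsw : star w = u := by
      rw [hw', hu, star_add, star_mul e e', star_mul (1 - e), star_sub, star_sub, star_one, hse,
        hse']
    rw [star_mul, hsρ, hsw]
    exact hρu.symm

end algebra

end SDCK
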