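import Pool.Agent.LibSDCK.Basic

/-!
# Self-dual Chow-Künneth decompositions from the lower half
-/

namespace SDCK

universe u v

open Polynomial

namespace Corr

variable {d : ℕ} (X : Corr.{u, v} d)

section basics

variable {X} {p : Fin d → X.A}

theorem sum_mul_self_of_ortho (hp : OrthogonalIdempotents p) (j : Fin d) :
    (∑ i, p i) * p j = p j := by
  rw [Finset.sum_mul]
  simp only [hp.mul_eq]
  simp

theorem self_mul_sum_of_ortho (hp : OrthogonalIdempotents p) (j : Fin d) :
    p j * (∑ i, p i) = p j := by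
  rw [Finset.mul_sum]
  simp only [hp.mul_eq]
  simp

theorem sum_idem (hp : OrthogonalIdempotents p) : (∑ i, p i) * (∑ i, p i) = ∑ i, p i := by
  rw [Finset.mul_sum]
  exact Finset.sum_congr rfl fun j _ => sum_mul_self_of_ortho hp j

theorem low_ne_rev (i j : Fin d) : (low i) ≠ (low j).rev := by
  intro h
  have := congrArg Fin.val h
  simp only [low, Fin.val_rev] at this
  omega

theorem R_star_mul (hp : X.IsLowerCK p) (i j : Fin d) : X.R (star (p i) * p j) = 0 := by
  rw [map_mul, X.R_star, hp.2, hp.2, X.π_star]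
  exact X.π_complete.ortho (Ne.symm (low_ne_rev j i))

theorem R_mul_star (hp : X.IsLowerCK p) (i j : Fin d) : X.R (p i * star (p j)) = 0 := by
  rw [map_mul, X.R_star, hp.2, hp.2, X.π_star]
  exact X.π_complete.ortho (low_ne_rev i j)

end basics

/-- Conjugating the lower half by `v` with `v* v = 1 - e* e` makes it isotropic. -/
theorem isotropic_of_norm {p : Fin d → X.A} (hp : X.IsLowerCK p) (v w : X.A) (hvw : v * w = 1)
    (hwv : w * v = 1) (hv : star v * v = 1 - star (∑ i, p i) * ∑ i, p i)
    (hR : ∀ i, X.R v * X.π (low i) = X.π (low i) * X.R v) :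
    X.IsLowerCK (fun i => v * p i * w) ∧ ∀ i j, star (v * p i * w) * (v * p j * w) = 0 := by
  refine ⟨⟨⟨fun i => ?_, fun i j hij => ?_⟩, fun i => ?_⟩, fun i j => ?_⟩
  · change v * p i * w * (v * p i * w) = v * p i * w
    calc v * p i * w * (v * p i * w) = v * p i * (w * v) * p i * w := by noncomm_ring
      _ = v * (p i * p i) * w := by rw [hwv]; noncomm_ring
      _ = v * p i * w := by rw [(hp.1.idem i).eq]
  · change v * p i * w * (v * p j * w) = 0
    calc v * p i * w * (v * p j * w) = v * p i * (w * v) * p j * w := by noncomm_ring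
      _ = v * (p i * p j) * w := by rw [hwv]; noncomm_ring
      _ = 0 := by rw [hp.1.ortho hij]; simp
  · rw [map_mul, map_mul, hp.2, hR, mul_assoc, ← map_mul, hvw, map_one, mul_one]
  · have h1 : star (p i) * (star v * v) * p j = 0 := by
      rw [hv]
      have h2 : star (p i) * star (∑ i, p i) = star (p i) := by
        rw [← star_mul, sum_mul_self_of_ortho hp.1]
      have h3 := sum_mul_self_of_ortho hp.1 j
      calc star (p i) * (1 - star (∑ i, p i) * ∑ i, p i) * p j
          = star (p i) * p j - (star (p i) * star (∑ i, p i)) * ((∑ i, p i) * p j) := by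
            noncomm_ring
        _ = 0 := by rw [h2, h3, sub_self]
    rw [star_mul, star_mul]
    calc star w * (star (p i) * star v) * (v * p j * w)
        = star w * (star (p i) * (star v * v) * p j) * w := by noncomm_ring
      _ = 0 := by rw [h1]; simp

/-- An isotropic lower half gives a self-dual Chow-Künneth decomposition. -/
theorem selfDual_of_isotropic {p : Fin d → X.A} (hp : X.IsLowerCK p)
    (hiso : ∀ i j, star (p i) * p j = 0) : ∃ P, X.IsSelfDualCK P := by
  classical
  let e := ∑ i, p i
  let f := star e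
  let h : X.A := algebraMap ℚ X.A (1 / 2)
  have hh : h + h = 1 := by
    rw [← map_add]; norm_num
  have hcom : ∀ x : X.A, h * x = x * h := fun x => Algebra.commutes _ _
  have hstar : star h = h := by
    have h1 : h = (1 / 2 : ℚ) • (1 : X.A) := Algebra.algebraMap_eq_smul_one _
    rw [h1, star_rat_smul, star_one]
  have fp : ∀ j, f * p j = 0 := by
    intro j
    change star (∑ i, p i) * p j = 0
    rw [star_sum, Finset.sum_mul]
    exact Finset.sum_eq_zero fun i _ => hiso i j
  have pe : ∀ j, p j * e = p j := fun j => self_mul_sum_of_ortho hp.1 j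
  have spe : ∀ j, star (p j) * e = 0 := by
    intro j
    have := congrArg star (fp j)
    rw [star_mul, star_star, star_zero] at this
    exact this
  have fsp : ∀ j, f * star (p j) = star (p j) := by
    intro j
    rw [← star_mul, pe]
  have pp := hp.1.mul_eq
  -- the new lower half
  let q : Fin d → X.A := fun i => p i - h * (p i * f)
  have hq1 : ∀ i j, q i * q j = if i = j then q i else 0 := by
    intro i j
    have h1 : q i * q j = p i * p j - h * (p i * p j * f) := by
      change (p i - h * (p i * f)) * (p j - h * (p j * f)) = _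
      have a1 : p i * (h * (p j * f)) = h * (p i * p j * f) := by
        rw [← mul_assoc, ← hcom, mul_assoc, mul_assoc]
      have a2 : h * (p i * f) * p j = 0 := by
        rw [mul_assoc, mul_assoc, fp, mul_zero, mul_zero]
      have a3 : h * (p i * f) * (h * (p j * f)) = 0 := by
        rw [hcom (p j * f), ← mul_assoc, ← mul_assoc, a2, zero_mul, zero_mul]
      rw [sub_mul, mul_sub, mul_sub, a1, a2, a3, sub_zero, sub_zero]
    rw [h1, pp]
    split_ifs
    · rfl
    · simp
  have hqs : ∀ i, star (q i) = star (p i) - h * (e * star (p i)) := by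
    intro i
    change star (p i - h * (p i * star e)) = _
    rw [star_sub, star_mul, star_mul, star_star, hstar, ← hcom]
  have hq2 : ∀ i j, star (q i) * q j = 0 := by
    intro i j
    rw [hqs]
    change (star (p i) - h * (e * star (p i))) * (p j - h * (p j * f)) = 0
    have a1 : star (p i) * (h * (p j * f)) = 0 := by
      rw [hcom (p j * f), ← mul_assoc, ← mul_assoc, hiso, zero_mul, zero_mul]
    have a2 : h * (e * star (p i)) * p j = 0 := by
      rw [mul_assoc, mul_assoc, hiso, mul_zero, mul_zero]
    have a3 : h * (e * star (p i)) * (h * (p j * f)) = 0 := by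
      rw [hcom (p j * f), ← mul_assoc, ← mul_assoc, a2, zero_mul, zero_mul]
    rw [sub_mul, mul_sub, mul_sub, hiso, a1, a2, a3]; simp
  have hq3 : ∀ i j, q i * star (q j) = 0 := by
    intro i j
    rw [hqs]
    change (p i - h * (p i * f)) * (star (p j) - h * (e * star (p j))) = 0
    have a1 : p i * (h * (e * star (p j))) = h * (p i * star (p j)) := by
      rw [← mul_assoc, ← hcom, mul_assoc, ← mul_assoc (p i), pe]
    have a2 : h * (p i * f) * star (p j) = h * (p i * star (p j)) := by
      rw [mul_assoc, mul_assoc, fsp]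
    have a3 : h * (p i * f) * (h * (e * star (p j))) = 0 := by
      have fe : f * e = 0 := by
        change f * (∑ i, p i) = 0
        rw [Finset.mul_sum]
        exact Finset.sum_eq_zero fun i _ => fp i
      calc h * (p i * f) * (h * (e * star (p j))) = h * p i * (f * h) * (e * star (p j)) := by
            noncomm_ring
        _ = h * p i * h * (f * e) * star (p j) := by rw [← hcom f]; noncomm_ring
        _ = 0 := by rw [fe]; simp
    rw [sub_mul, mul_sub, mul_sub, a1, a2, a3, sub_zero]
    have a4 : p i * star (p j) = h * (p i * star (p j)) + h * (p i * star (p j)) := by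
      rw [← add_mul, hh, one_mul]
    rw [sub_sub, ← a4, sub_self]
  have hq4 : ∀ i, X.R (q i) = X.π (low i) := by
    intro i
    have h1 : X.R (p i * f) = 0 := by
      change X.R (p i * star (∑ j, p j)) = 0
      rw [star_sum, Finset.mul_sum, map_sum]
      exact Finset.sum_eq_zero fun j _ => R_mul_star hp i j
    change X.R (p i - h * (p i * f)) = _
    rw [map_sub, map_mul, h1, mul_zero, sub_zero, hp.2]
  -- the full decomposition
  let E := ∑ i, q i
  let P : Fin (2 * d + 1) → X.A := fun i =>
    if h : (i : ℕ) < d then q ⟨i, h⟩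
    else if h' : (i : ℕ) = d then 1 - E - star E
    else star (q ⟨2 * d - i, by omega⟩)
  have hPlow : ∀ i : Fin d, P (low i) = q i := by
    intro i
    have h1 : ((low i : Fin (2 * d + 1)) : ℕ) < d := i.2
    simp only [P, dif_pos h1]
    rfl
  have hPup : ∀ i : Fin d, P (low i).rev = star (q i) := by
    intro i
    have hv : ((low i).rev : ℕ) = 2 * d - i := by
      simp only [Fin.val_rev, low]; omega
    have h1 : ¬ ((low i).rev : ℕ) < d := by have := i.2; omega
    have h2 : ¬ ((low i).rev : ℕ) = d := by have := i.2; omega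
    simp only [P, dif_neg h1, dif_neg h2]
    congr 2
    apply Fin.ext
    change 2 * d - ((low i).rev : ℕ) = i
    have := i.2; omega
  let mid : Fin (2 * d + 1) := ⟨d, by omega⟩
  have hPmid : P mid = 1 - E - star E := by
    have h1 : ¬ (mid : ℕ) < d := lt_irrefl d
    simp only [P, dif_neg h1]
    rw [dif_pos rfl]
  have hcases : ∀ i : Fin (2 * d + 1), (∃ j, i = low j) ∨ i = mid ∨ ∃ j, i = (low j).rev := by
    intro i
    rcases lt_trichotomy (i : ℕ) d with h | h | h
    · exact Or.inl ⟨⟨i, h⟩, rfl⟩
    · exact Or.inr (Or.inl (Fin.ext h))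
    · refine Or.inr (Or.inr ⟨⟨2 * d - i, by omega⟩, Fin.ext ?_⟩)
      simp only [Fin.val_rev, low]; omega
  have hmidrev : mid.rev = mid := Fin.ext (by simp only [Fin.val_rev, mid]; omega)
  have hlowinj : ∀ i j : Fin d, low i = low j → i = j := fun i j h => by
    have h1 := congrArg Fin.val h
    exact Fin.ext h1
  have hlowmid : ∀ i : Fin d, low i ≠ mid := fun i h => by
    have h1 : (i : ℕ) = d := congrArg Fin.val h
    have := i.2; omega
  have hrevmid : ∀ i : Fin d, (low i).rev ≠ mid := fun i h => by
    apply hlowmid i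
    rw [← Fin.rev_rev (low i), h, hmidrev]
  have hPstar : ∀ i, star (P i) = P i.rev := by
    intro i
    rcases hcases i with ⟨j, rfl⟩ | rfl | ⟨j, rfl⟩
    · rw [hPlow, hPup]
    · rw [hmidrev, hPmid, star_sub, star_sub, star_star, star_one]; abel
    · rw [hPup, Fin.rev_rev, hPlow, star_star]
  have Eq : ∀ j, E * q j = q j := by
    intro j
    change (∑ i, q i) * q j = q j
    rw [Finset.sum_mul]; simp only [hq1]; simp
  have qE : ∀ j, q j * E = q j := by
    intro j
    change q j * (∑ i, q i) = q j
    rw [Finset.mul_sum]; simp only [hq1]; simp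
  have sEq : ∀ j, star E * q j = 0 := by
    intro j
    change star (∑ i, q i) * q j = 0
    rw [star_sum, Finset.sum_mul]
    exact Finset.sum_eq_zero fun i _ => hq2 i j
  have qsE : ∀ j, q j * star E = 0 := by
    intro j
    change q j * star (∑ i, q i) = 0
    rw [star_sum, Finset.mul_sum]
    exact Finset.sum_eq_zero fun i _ => hq3 j i
  have Esq : ∀ j, E * star (q j) = 0 := by
    intro j
    have := congrArg star (qsE j)
    rwa [star_mul, star_star, star_zero] at this
  have sqE : ∀ j, star (q j) * E = 0 := by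
    intro j
    have := congrArg star (sEq j)
    rwa [star_mul, star_star, star_zero] at this
  have sEsq : ∀ j, star E * star (q j) = star (q j) := by
    intro j; rw [← star_mul, qE]
  have sqsE : ∀ j, star (q j) * star E = star (q j) := by
    intro j; rw [← star_mul, Eq]
  have hortho : Pairwise (P · * P · = 0) := by
    intro i j hij
    rcases hcases i with ⟨a, rfl⟩ | rfl | ⟨a, rfl⟩ <;> rcases hcases j with ⟨b, rfl⟩ | rfl | ⟨b, rfl⟩
    · rw [hPlow, hPlow, hq1, if_neg]
      intro h; exact hij (by rw [h])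
    · rw [hPlow, hPmid, mul_sub, mul_sub, mul_one, qE, qsE]; simp
    · rw [hPlow, hPup, hq3]
    · rw [hPlow, hPmid, sub_mul, sub_mul, one_mul, Eq, sEq]; simp
    · exact absurd rfl hij
    · rw [hPup, hPmid, sub_mul, sub_mul, one_mul, Esq, sEsq]; simp
    · rw [hPlow, hPup, hq2]
    · rw [hPup, hPmid, mul_sub, mul_sub, mul_one, sqE, sqsE]; simp
    · rw [hPup, hPup, ← star_mul, hq1, if_neg]
      · simp
      · intro h; exact hij (by rw [h])
  -- sums over all degrees
  have hunivA : ∀ F : Fin (2 * d + 1) → X.A,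
      ∑ i, F i = (∑ j : Fin d, F (low j)) + F mid + ∑ j : Fin d, F (low j).rev := by
    intro F
    have h1 : (Finset.univ : Finset (Fin (2 * d + 1))) =
        ((Finset.univ.image low) ∪ {mid}) ∪ (Finset.univ.image fun j : Fin d => (low j).rev) := by
      ext i
      simp only [Finset.mem_univ, Finset.mem_union, Finset.mem_image, Finset.mem_singleton,
        true_and, true_iff]
      rcases hcases i with ⟨j, rfl⟩ | rfl | ⟨j, rfl⟩
      · exact Or.inl (Or.inl ⟨j, rfl⟩)
      · exact Or.inl (Or.inr rfl)
      · exact Or.inr ⟨j, rfl⟩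
    rw [h1, Finset.sum_union, Finset.sum_union, Finset.sum_image, Finset.sum_image,
      Finset.sum_singleton]
    · intro a _ b _ h; exact hlowinj a b (Fin.rev_injective h)
    · intro a _ b _ h; exact hlowinj a b h
    · rw [Finset.disjoint_left]
      rintro _ h1 h2
      rw [Finset.mem_image] at h1
      rw [Finset.mem_singleton] at h2
      obtain ⟨j, -, rfl⟩ := h1
      exact hlowmid j h2
    · rw [Finset.disjoint_left]
      rintro _ h1 h2
      rw [Finset.mem_image] at h2
      obtain ⟨j, -, rfl⟩ := h2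
      rw [Finset.mem_union, Finset.mem_image, Finset.mem_singleton] at h1
      rcases h1 with ⟨i, -, h1⟩ | h1
      · exact low_ne_rev i j h1
      · exact hrevmid j h1
  have hcomplete : ∑ i, P i = 1 := by
    rw [hunivA, hPmid]
    simp only [hPlow, hPup]
    rw [← star_sum]
    change E + (1 - E - star E) + star E = 1
    abel
  have hCK : CompleteOrthogonalIdempotents P :=
    CompleteOrthogonalIdempotents.iff_ortho_complete.2 ⟨hortho, hcomplete⟩
  refine ⟨P, ⟨hCK, fun i => ?_⟩, hPstar⟩
  have hlowR : ∀ j, X.R (P (low j)) = X.π (low j) := fun j => by rw [hPlow, hq4]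
  have hupR : ∀ j : Fin d, X.R (P (low j).rev) = X.π (low j).rev := fun j => by
    rw [hPup, X.R_star, hq4, X.π_star]
  rcases hcases i with ⟨j, rfl⟩ | rfl | ⟨j, rfl⟩
  · exact hlowR j
  · have h1 : ∀ F : Fin (2 * d + 1) → X.H, ∑ i, F i
        = F mid + ∑ i ∈ Finset.univ.erase mid, F i := fun F =>
      (Finset.add_sum_erase _ _ (Finset.mem_univ mid)).symm
    have h2 : ∑ i, X.R (P i) = ∑ i, X.π i := by
      rw [← map_sum, hcomplete, map_one, X.π_complete.complete]
    rw [h1, h1 X.π] at h2
    have h3 : ∑ i ∈ Finset.univ.erase mid, X.R (P i) = ∑ i ∈ Finset.univ.erase mid, X.π i := by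
      refine Finset.sum_congr rfl fun i hi => ?_
      rcases hcases i with ⟨j, rfl⟩ | rfl | ⟨j, rfl⟩
      · exact hlowR j
      · exact absurd rfl (Finset.mem_erase.1 hi).1
      · exact hupR j
    rw [h3] at h2
    exact add_right_cancel h2
  · exact hupR j

/-- If `e* e` is nilpotent, where `e` is the sum of the lower half, then `1 - e* e = v* v` with
`R v = 1`. -/
theorem exists_norm_of_nilpotent {p : Fin d → X.A} (hp : X.IsLowerCK p)
    (hn : IsNilpotent (star (∑ i, p i) * ∑ i, p i)) :
    ∃ v w : X.A, v * w = 1 ∧ w * v = 1 ∧ X.R v = 1 ∧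
      star v * v = 1 - star (∑ i, p i) * ∑ i, p i := by
  have hs : star (star (∑ i, p i) * ∑ i, p i) = star (∑ i, p i) * ∑ i, p i := by
    rw [star_mul, star_star]
  obtain ⟨s, hs0, h1, h2, h3⟩ := exists_sqrt_one_sub hn hs
  obtain ⟨u, hu⟩ := h3
  refine ⟨aeval (star (∑ i, p i) * ∑ i, p i) s, (u⁻¹ : X.Aˣ), ?_, ?_, ?_, ?_⟩
  · rw [← hu]; exact u.mul_inv
  · rw [← hu]; exact u.inv_mul
  · have hg : X.R (star (∑ i, p i) * ∑ i, p i) = 0 := by
      rw [star_sum, Finset.sum_mul, map_sum]
      refine Finset.sum_eq_zero fun i _ => ?_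
      rw [Finset.mul_sum, map_sum]
      exact Finset.sum_eq_zero fun j _ => R_star_mul hp i j
    obtain ⟨t, ht⟩ : (Polynomial.X : ℚ[X]) ∣ s - 1 := by
      rw [X_dvd_iff]; simp [hs0]
    have h4 : s = 1 + Polynomial.X * t := by rw [← ht]; ring
    rw [h4, map_add, map_one, map_mul, aeval_X, map_add, map_one, map_mul, hg, zero_mul, add_zero]
  · rw [h1, h2]

end Corr

/-! ### algebraic subalgebras -/

section algebraic

variable {A : Type u} [Ring A] [Algebra ℚ A]

/-- Intertwining passes to polynomials. -/
theorem aeval_mul_of_intertwine {c c' x : A} (h : c * x = x * c') (f : ℚ[X]) :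
    aeval c f * x = x * aeval c' f := by
  have hpow : ∀ n : ℕ, c ^ n * x = x * c' ^ n := by
    intro n
    induction n with
    | zero => simp
    | succ n ih => rw [pow_succ, mul_assoc, h, ← mul_assoc, ih, mul_assoc, ← pow_succ]
  induction f using Polynomial.induction_on' with
  | add p q hp hq => rw [map_add, map_add, add_mul, mul_add, hp, hq]
  | monomial n a =>
    rw [aeval_monomial, aeval_monomial, mul_assoc, hpow, ← mul_assoc, Algebra.commutes, mul_assoc]

/-- For an algebraic element `c` there is a polynomial `X g` without constant term such that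
its value at `c` is idempotent and `c (1 - c g(c))` is nilpotent. -/
theorem exists_split {c : A} (hc : IsAlgebraic ℚ c) :
    ∃ g : ℚ[X], aeval c (Polynomial.X * g) * aeval c (Polynomial.X * g)
        = aeval c (Polynomial.X * g) ∧
      IsNilpotent (c * (1 - aeval c (Polynomial.X * g))) := by
  obtain ⟨P, hP0, hP⟩ := hc
  obtain ⟨Q, hPQ, hQ⟩ := Polynomial.exists_eq_pow_rootMultiplicity_mul_and_not_dvd P hP0 0
  rw [C_0, sub_zero] at hPQ hQ
  set k := P.rootMultiplicity 0
  have hcop : IsCoprime (Polynomial.X ^ (k + 1) : ℚ[X]) Q := by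
    apply IsCoprime.pow_left
    exact (Polynomial.irreducible_X.coprime_iff_not_dvd).2 hQ
  obtain ⟨a, b, hab⟩ := hcop
  have h2 : 1 - Polynomial.X * (a * Polynomial.X ^ k) = b * Q := by
    rw [← hab]; ring
  have key : ∀ f : ℚ[X], P ∣ f → aeval c f = 0 := by
    rintro f ⟨t, rfl⟩
    rw [map_mul, hP, zero_mul]
  refine ⟨a * Polynomial.X ^ k, ?_, k + 1, ?_⟩
  · rw [← map_mul, ← sub_eq_zero, ← map_sub]
    apply key
    have h1 : Polynomial.X * (a * Polynomial.X ^ k) * (Polynomial.X * (a * Polynomial.X ^ k))
        - Polynomial.X * (a * Polynomial.X ^ k)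
        = - (Polynomial.X * (a * Polynomial.X ^ k)) *
          (1 - Polynomial.X * (a * Polynomial.X ^ k)) := by ring
    rw [h1, h2, hPQ]
    exact ⟨-(Polynomial.X * a * b), by ring⟩
  · have h3 : c * (1 - aeval c (Polynomial.X * (a * Polynomial.X ^ k)))
        = aeval c (Polynomial.X * (1 - Polynomial.X * (a * Polynomial.X ^ k))) := by
      rw [map_mul (aeval c) Polynomial.X (1 - _), aeval_X, map_sub, map_one]
    rw [h3, ← map_pow]
    apply key
    rw [h2, hPQ]
    exact ⟨Polynomial.X * b * (b * Q) ^ k, by ring⟩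

theorem aeval_mem_of_mem {B : Subalgebra ℚ A} {x : A} (hx : x ∈ B) (f : ℚ[X]) :
    aeval x f ∈ B := by
  rw [aeval_eq_sum_range]
  exact B.sum_mem fun i _ => B.smul_mem (B.pow_mem hx i) _

/-- Lift an idempotent of the image in the corner of an idempotent `e`. -/
theorem exists_lift_idem {H : Type v} [Ring H] (R : A →+* H) (B : Subalgebra ℚ A)
    (hB : ∀ b ∈ B, IsAlgebraic ℚ b) {e a : A} (he : e * e = e) (heB : e ∈ B) (haB : a ∈ B)
    (hea : R e * R a * R e = R a) (hRa : R a * R a = R a) :
    ∃ p ∈ B, p * p = p ∧ e * p = p ∧ p * e = p ∧ R p = R a := by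
  let x := e * a * e
  have hxB : x ∈ B := B.mul_mem (B.mul_mem heB haB) heB
  have hex : e * x = x := by
    change e * (e * a * e) = e * a * e
    rw [← mul_assoc, ← mul_assoc, he]
  have hxe : x * e = x := by
    change e * a * e * e = e * a * e
    rw [mul_assoc, he]
  have hRx : R x = R a := by
    change R (e * a * e) = R a
    rw [map_mul, map_mul, hea]
  obtain ⟨P, hP0, hP⟩ := hB x hxB
  -- write P = (X - 1)^l Q with Q(1) ≠ 0
  obtain ⟨Q, hPQ, hQ⟩ := Polynomial.exists_eq_pow_rootMultiplicity_mul_and_not_dvd P hP0 1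
  set l := P.rootMultiplicity 1
  have hirr : Irreducible (Polynomial.X - Polynomial.C (1 : ℚ)) := Polynomial.irreducible_X_sub_C 1
  have hQX : ¬ (Polynomial.X - Polynomial.C (1 : ℚ)) ∣ Polynomial.X * Q := by
    intro h
    rcases (hirr.prime.dvd_or_dvd h) with h | h
    · rw [Polynomial.dvd_iff_isRoot] at h
      simp at h
    · exact hQ h
  have hcop : IsCoprime ((Polynomial.X - Polynomial.C (1 : ℚ)) ^ (l + 1)) (Polynomial.X * Q) :=
    IsCoprime.pow_left ((hirr.coprime_iff_not_dvd).2 hQX)
  obtain ⟨u, w, huw⟩ := hcop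
  -- g = X * (w Q) is 1 mod (X-1)^(l+1) and 0 mod X Q
  have h2 : 1 - Polynomial.X * (w * Q) = u * (Polynomial.X - Polynomial.C (1 : ℚ)) ^ (l + 1) := by
    rw [← huw]; ring
  have key : ∀ f : ℚ[X], P ∣ f → aeval x f = 0 := by
    rintro f ⟨t, rfl⟩
    rw [map_mul, hP, zero_mul]
  refine ⟨aeval x (Polynomial.X * (w * Q)), ?_, ?_, ?_, ?_, ?_⟩
  · exact aeval_mem_of_mem hxB _
  · rw [← map_mul, ← sub_eq_zero, ← map_sub]
    apply key
    have h1 : Polynomial.X * (w * Q) * (Polynomial.X * (w * Q)) - Polynomial.X * (w * Q)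
        = - (Polynomial.X * (w * Q)) * (1 - Polynomial.X * (w * Q)) := by ring
    rw [h1, h2, hPQ]
    exact ⟨-(Polynomial.X * w * u * (Polynomial.X - Polynomial.C (1 : ℚ))), by ring⟩
  · rw [map_mul, aeval_X, ← mul_assoc, hex]
  · have hc : aeval x (Polynomial.X * (w * Q)) = aeval x (w * Q) * x := by
      rw [mul_comm Polynomial.X, map_mul, aeval_X]
    rw [hc, mul_assoc, hxe]
  · -- R of it
    have h5 : Polynomial.X * (w * Q) - Polynomial.X = (Polynomial.X * Polynomial.X - Polynomial.X)
        * (-(w * Q) - u * (Polynomial.X - Polynomial.C (1 : ℚ)) ^ l) := by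
      rw [map_one] at huw ⊢
      linear_combination Polynomial.X * huw
    have h6 := congrArg (fun f => R (aeval x f)) h5
    simp only [map_sub, map_mul, aeval_X] at h6
    rw [hRx, hRa, sub_self, zero_mul, sub_eq_zero] at h6
    rw [map_mul, map_mul, map_mul, map_mul, aeval_X, hRx]
    exact h6

end algebraic

end SDCK
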