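import Pool.Agent.LibSDCK.Lefschetz

/-!
# Formal data of a polarised variety and Chow-Lefschetz decompositions
-/

namespace SDCK

universe u v

/-- The formal data attached to a smooth projective variety `X` of pure dimension `d` with a
divisor class: `C` is the ring of correspondences of all degrees on `X` with rational
coefficients (`deg k` is `CH^{d+k}(X × X)`), `star` is the transposition; `H` is the ring of
endomorphisms of the cohomology of `X` (even degrees) with the adjoint for the Poincaré duality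
pairing; `R` is the action on cohomology, `π i` the projector onto cohomology of degree `i` and
`L` the (symmetric) class of the divisor on the diagonal, a correspondence of degree `1`. -/
structure LCorr (d : ℕ) where
  /-- correspondences of all degrees -/
  C : Type u
  ringC : Ring C
  algC : Algebra ℚ C
  starC : StarRing C
  /-- correspondences of degree `k` -/
  deg : ℤ → Submodule ℚ C
  one_mem : (1 : C) ∈ deg 0
  mul_mem : ∀ {j k : ℤ} {a b : C}, a ∈ deg j → b ∈ deg k → a * b ∈ deg (j + k)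
  star_mem : ∀ {k : ℤ} {a : C}, a ∈ deg k → star a ∈ deg k
  /-- endomorphisms of the cohomology -/
  H : Type v
  ringH : Ring H
  starH : StarRing H
  /-- the action on cohomology -/
  R : C →+* H
  R_star : ∀ a : C, R (star a) = star (R a)
  /-- the Künneth projectors -/
  π : Fin (2 * d + 1) → H
  π_complete : CompleteOrthogonalIdempotents π
  π_star : ∀ i, star (π i) = π i.rev
  /-- the Lefschetz operator -/
  L : C
  L_mem : L ∈ deg 1
  L_star : star L = L

attribute [instance] LCorr.ringC LCorr.algC LCorr.starC LCorr.ringH LCorr.starH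

/-- `ext p j` is `p j` for `0 ≤ j ≤ 2d` and `0` for the other integers `j`. -/
def ext {d : ℕ} {C : Type u} [Zero C] (p : Fin (2 * d + 1) → C) (j : ℤ) : C :=
  if h : 0 ≤ j ∧ j ≤ 2 * d then p ⟨j.toNat, by omega⟩ else 0

/-- `M` is homogeneous of degree `k` for the decomposition `p`:
it maps the part of weight `j` to the part of weight `j + 2k`. -/
def IsHomogeneous {d : ℕ} {C : Type u} [Ring C] (p : Fin (2 * d + 1) → C) (k : ℤ) (M : C) :
    Prop :=
  ∀ j : ℤ, M * ext p j = ext p (j + 2 * k) * M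

namespace LCorr

variable {d : ℕ} (X : LCorr.{u, v} d)

/-- A Chow-Künneth decomposition: orthogonal idempotents of degree `0` with sum `1` lifting the
Künneth projectors. -/
def IsCK (p : Fin (2 * d + 1) → X.C) : Prop :=
  (∀ i, p i ∈ X.deg 0) ∧ CompleteOrthogonalIdempotents p ∧ ∀ i, X.R (p i) = X.π i

/-- A Chow-Lefschetz decomposition: a Chow-Künneth decomposition for which `L` is homogeneous
and `L ^ (d - n) : h^n(X) → h^{2d-n}(X)(d-n)` is an isomorphism of motives (with inverse `θ`)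
for all `n ≤ d`. -/
def IsChowLefschetz (p : Fin (2 * d + 1) → X.C) : Prop :=
  X.IsCK p ∧ IsHomogeneous p 1 X.L ∧
    ∀ n : ℕ, n ≤ d → ∃ θ ∈ X.deg (-((d - n : ℕ) : ℤ)),
      θ * X.L ^ (d - n) * ext p n = ext p n ∧
      X.L ^ (d - n) * θ * ext p (2 * d - n) = ext p (2 * d - n)

/-- Self-duality: the transpose of `p i` is `p (2d - i)`. -/
def IsSelfDual (p : Fin (2 * d + 1) → X.C) : Prop :=
  ∀ i, star (p i) = p i.rev

end LCorr

/-! ### translation -/

section ext

variable {d : ℕ} {C : Type u}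

theorem ext_out [Zero C] (p : Fin (2 * d + 1) → C) {j : ℤ} (h : j < 0 ∨ 2 * (d : ℤ) < j) :
    ext p j = 0 := by
  rw [ext, dif_neg]
  omega

theorem ext_fin [Zero C] (p : Fin (2 * d + 1) → C) (i : Fin (2 * d + 1)) :
    ext p ((i : ℕ) : ℤ) = p i := by
  rw [ext, dif_pos ⟨by omega, by omega⟩]
  congr 1

theorem ext_rev [Zero C] (p : Fin (2 * d + 1) → C) (i : Fin (2 * d + 1)) :
    ext p (2 * (d : ℤ) - ((i : ℕ) : ℤ)) = p i.rev := by
  rw [← ext_fin p i.rev]
  congr 1
  rw [Fin.val_rev]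
  omega

theorem exists_fin {j : ℤ} (h : ¬(j < 0 ∨ 2 * (d : ℤ) < j)) :
    ∃ i : Fin (2 * d + 1), ((i : ℕ) : ℤ) = j := by
  rw [not_or, not_lt, not_lt] at h
  exact ⟨⟨j.toNat, by omega⟩, by show ((j.toNat : ℕ) : ℤ) = j; omega⟩

theorem sum_ext [Ring C] (p : Fin (2 * d + 1) → C) :
    ∑ i ∈ Finset.Icc (0 : ℤ) (2 * d), ext p i = ∑ i, p i := by
  symm
  refine Finset.sum_bij (fun i _ => ((i : ℕ) : ℤ)) ?_ ?_ ?_ ?_
  · intro i _
    rw [Finset.mem_Icc]
    omega
  · intro i _ j _ h
    exact Fin.ext (by exact_mod_cast h)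
  · intro j hj
    rw [Finset.mem_Icc] at hj
    obtain ⟨i, hi⟩ := exists_fin (d := d) (j := j) (by omega)
    exact ⟨i, Finset.mem_univ _, hi⟩
  · intro i _
    rw [ext_fin]

theorem LGr.of_fin [Ring C] {L : C} {p : Fin (2 * d + 1) → C}
    (hp : CompleteOrthogonalIdempotents p) (hL : IsHomogeneous p 1 L)
    (hiso : ∀ n : ℕ, n ≤ d → ∃ θ : C, θ * L ^ (d - n) * ext p n = ext p n ∧
      L ^ (d - n) * θ * ext p (2 * d - n) = ext p (2 * d - n)) :
    LGr d L (ext p) where
  out j hj := ext_out p hj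
  idem j := by
    by_cases h : j < 0 ∨ 2 * (d : ℤ) < j
    · rw [ext_out p h, mul_zero]
    · obtain ⟨i, rfl⟩ := exists_fin h
      rw [ext_fin]
      exact hp.idem i
  ortho i j hij := by
    by_cases h : i < 0 ∨ 2 * (d : ℤ) < i
    · rw [ext_out p h, zero_mul]
    · by_cases h' : j < 0 ∨ 2 * (d : ℤ) < j
      · rw [ext_out p h', mul_zero]
      · obtain ⟨i, rfl⟩ := exists_fin h
        obtain ⟨j, rfl⟩ := exists_fin h'
        rw [ext_fin, ext_fin]
        exact hp.ortho (fun h => hij (by rw [h]))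
  sum := by rw [sum_ext, hp.complete]
  hom j := by
    have := hL j
    rwa [mul_one] at this
  iso := hiso

end ext

namespace LCorr

variable {d : ℕ} {X : LCorr.{u, v} d}

theorem IsChowLefschetz.lgr {p : Fin (2 * d + 1) → X.C} (hp : X.IsChowLefschetz p) :
    LGr d X.L (ext p) := by
  refine LGr.of_fin hp.1.2.1 hp.2.1 fun n hn => ?_
  obtain ⟨θ, -, h⟩ := hp.2.2 n hn
  exact ⟨θ, h⟩

theorem IsCK.ext_mem {p : Fin (2 * d + 1) → X.C} (hp : X.IsCK p) (j : ℤ) : ext p j ∈ X.deg 0 := by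
  by_cases h : j < 0 ∨ 2 * (d : ℤ) < j
  · rw [ext_out p h]
    exact Submodule.zero_mem _
  · obtain ⟨i, rfl⟩ := exists_fin h
    rw [ext_fin]
    exact hp.1 i

theorem mul_mem_zero {a b : X.C} (ha : a ∈ X.deg 0) (hb : b ∈ X.deg 0) : a * b ∈ X.deg 0 := by
  have := X.mul_mem ha hb
  rwa [add_zero] at this

theorem pow_mem_zero {a : X.C} (ha : a ∈ X.deg 0) (n : ℕ) : a ^ n ∈ X.deg 0 := by
  induction n with
  | zero => rw [pow_zero]; exact X.one_mem
  | succ n ih => rw [pow_succ]; exact mul_mem_zero ih ha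

theorem inter_mem {e f : ℤ → X.C} (he : ∀ j, e j ∈ X.deg 0) (hf : ∀ j, f j ∈ X.deg 0) :
    LGr.inter d f e ∈ X.deg 0 :=
  Submodule.sum_mem _ fun _ _ => mul_mem_zero (hf _) (he _)

open Polynomial in
theorem aeval_mem {a : X.C} (ha : a ∈ X.deg 0) (s : ℚ[X]) : aeval a s ∈ X.deg 0 := by
  rw [aeval_eq_sum_range]
  exact Submodule.sum_mem _ fun _ _ => Submodule.smul_mem _ _ (pow_mem_zero ha _)

/-- inverse of `1 - N` for nilpotent `N` of degree `0` -/
theorem exists_inv {N : X.C} (hN : N ∈ X.deg 0) {m : ℕ} (h : N ^ m = 0) :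
    ∃ w ∈ X.deg 0, (1 - N) * w = 1 ∧ w * (1 - N) = 1 := by
  refine ⟨∑ i ∈ Finset.range m, N ^ i, Submodule.sum_mem _ fun i _ => pow_mem_zero hN i, ?_, ?_⟩
  · rw [mul_neg_geom_sum, h, sub_zero]
  · rw [geom_sum_mul_neg, h, sub_zero]

/-- the intertwiner of two Chow-Lefschetz decompositions -/
theorem exists_intertwiner {p q : Fin (2 * d + 1) → X.C} (hp : X.IsChowLefschetz p)
    (hq : X.IsChowLefschetz q) :
    ∃ g ∈ X.deg 0, ∃ w ∈ X.deg 0, g * w = 1 ∧ w * g = 1 ∧ (1 - g) ^ (2 * d + 1) = 0 ∧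
      X.R g = 1 ∧ (∀ i, g * p i = q i * g) ∧
      (∀ (k : ℤ) (M : X.C), IsHomogeneous p k M → IsHomogeneous q k M → g * M = M * g) ∧
      g = LGr.inter d (ext q) (ext p) := by
  have he := hp.lgr
  have hf := hq.lgr
  have hmem : LGr.inter d (ext q) (ext p) ∈ X.deg 0 := inter_mem hp.1.ext_mem hq.1.ext_mem
  have hnil := he.nilpotent hf
  obtain ⟨w, hw, h1, h2⟩ := exists_inv (Submodule.sub_mem _ X.one_mem hmem) hnil
  rw [sub_sub_cancel] at h1 h2
  refine ⟨_, hmem, w, hw, h1, h2, hnil, ?_, ?_, ?_, rfl⟩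
  · rw [LGr.inter, map_sum]
    have h3 : ∀ i ∈ Finset.Icc (0 : ℤ) (2 * d), X.R (ext q i * ext p i) = ext X.π i := by
      intro i hi
      rw [Finset.mem_Icc] at hi
      obtain ⟨j, rfl⟩ := exists_fin (d := d) (j := i) (by omega)
      rw [ext_fin, ext_fin, ext_fin, map_mul, hp.1.2.2, hq.1.2.2]
      exact X.π_complete.idem j
    rw [Finset.sum_congr rfl h3, sum_ext, X.π_complete.complete]
  · intro i
    have := he.inter_comm hf i
    rwa [ext_fin, ext_fin] at this
  · intro k M h3 h4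
    exact he.inter_commute hf h3 h4

end LCorr

end SDCK
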