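import Pool.Agent.LibSDCK.LefData

/-!
# Self-dual Chow-Lefschetz decompositions
-/

namespace SDCK

universe u v

namespace LCorr

variable {d : ℕ} {X : LCorr.{u, v} d}

theorem mul_mem_neg {k : ℤ} {a b c : X.C} (ha : a ∈ X.deg 0) (hb : b ∈ X.deg k)
    (hc : c ∈ X.deg 0) : a * b * c ∈ X.deg k := by
  have := X.mul_mem (X.mul_mem ha hb) hc
  rwa [zero_add, add_zero] at this

/-- conjugating a Chow-Lefschetz decomposition by a unit acting trivially on cohomology and
commuting with `L` -/
theorem IsChowLefschetz.conj {p : Fin (2 * d + 1) → X.C} (hp : X.IsChowLefschetz p)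
    {v w : X.C} (hv : v ∈ X.deg 0) (hw : w ∈ X.deg 0) (hvw : v * w = 1) (hwv : w * v = 1)
    (hRv : X.R v = 1) (hvL : v * X.L = X.L * v) :
    X.IsChowLefschetz (fun i => v * p i * w) := by
  have he := hp.lgr
  have hext : ∀ j : ℤ, ext (fun i => v * p i * w) j = v * ext p j * w := by
    intro j
    by_cases h : j < 0 ∨ 2 * (d : ℤ) < j
    · rw [ext_out _ h, ext_out _ h, mul_zero, zero_mul]
    · obtain ⟨i, rfl⟩ := exists_fin h
      rw [ext_fin, ext_fin]
  have hc := he.conj hvw hwv hvL
  have hRw : X.R w = 1 := by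
    have := congrArg X.R hvw
    rwa [map_mul, hRv, one_mul, map_one] at this
  refine ⟨⟨fun i => mul_mem_neg hv (hp.1.1 i) hw, ⟨⟨fun i => ?_, fun i j hij => ?_⟩, ?_⟩,
    fun i => ?_⟩, fun j => ?_, fun n hn => ?_⟩
  · have := hc.idem ((i : ℕ) : ℤ)
    simp only [ext_fin] at this
    exact this
  · have := hc.ortho ((i : ℕ) : ℤ) ((j : ℕ) : ℤ) (fun h => hij (Fin.ext (by exact_mod_cast h)))
    simp only [ext_fin] at this
    exact this
  · show ∑ i, v * p i * w = 1
    rw [← Finset.sum_mul, ← Finset.mul_sum, hp.1.2.1.complete, mul_one, hvw]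
  · show X.R (v * p i * w) = X.π i
    rw [map_mul, map_mul, hRv, hRw, one_mul, mul_one, hp.1.2.2]
  · rw [hext, hext]
    have := hc.hom j
    rw [mul_one]
    exact this
  · obtain ⟨θ, hθ, h1, h2⟩ := hp.2.2 n hn
    have hvLk : ∀ k : ℕ, v * X.L ^ k = X.L ^ k * v := fun k =>
      (Commute.pow_right (show Commute v X.L from hvL) k).eq
    refine ⟨v * θ * w, mul_mem_neg hv hθ hw, ?_, ?_⟩
    · rw [hext]
      calc v * θ * w * X.L ^ (d - n) * (v * ext p n * w)
          = v * θ * w * (X.L ^ (d - n) * v) * ext p n * w := by simp only [mul_assoc]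
        _ = v * θ * (w * v) * X.L ^ (d - n) * ext p n * w := by
          rw [← hvLk]; simp only [mul_assoc]
        _ = v * (θ * X.L ^ (d - n) * ext p n) * w := by
          rw [hwv]; simp only [mul_assoc, one_mul]
        _ = _ := by rw [h1]
    · rw [hext]
      calc X.L ^ (d - n) * (v * θ * w) * (v * ext p (2 * d - n) * w)
          = (X.L ^ (d - n) * v) * θ * (w * v) * ext p (2 * d - n) * w := by
            simp only [mul_assoc]
        _ = v * (X.L ^ (d - n) * θ * ext p (2 * d - n)) * w := by
          rw [hwv, ← hvLk]; simp only [mul_assoc, one_mul]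
        _ = _ := by rw [h2]

theorem ext_transpose (p : Fin (2 * d + 1) → X.C) :
    ext (fun i => star (p i.rev)) = fun j => star (ext p (2 * (d : ℤ) - j)) := by
  funext j
  by_cases h : j < 0 ∨ 2 * (d : ℤ) < j
  · rw [ext_out _ h, ext_out p (by omega), star_zero]
  · obtain ⟨i, rfl⟩ := exists_fin h
    rw [ext_fin, ext_rev]

/-- the transposed decomposition -/
theorem IsChowLefschetz.transpose {p : Fin (2 * d + 1) → X.C} (hp : X.IsChowLefschetz p) :
    X.IsChowLefschetz (fun i => star (p i.rev)) := by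
  have he := hp.lgr
  have hc := he.transpose X.L_star
  refine ⟨⟨fun i => X.star_mem (hp.1.1 _), ⟨⟨fun i => ?_, fun i j hij => ?_⟩, ?_⟩,
    fun i => ?_⟩, fun j => ?_, fun n hn => ?_⟩
  · show star (p i.rev) * star (p i.rev) = star (p i.rev)
    rw [← star_mul, hp.1.2.1.idem]
  · show star (p i.rev) * star (p j.rev) = 0
    rw [← star_mul, hp.1.2.1.ortho (fun h => hij (Fin.rev_injective h).symm), star_zero]
  · show ∑ i, star (p (Fin.rev i)) = 1
    rw [← star_sum]
    have h1 : ∑ i, p (Fin.rev i) = ∑ i, p i := Equiv.sum_comp Fin.revPerm p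
    rw [h1, hp.1.2.1.complete, star_one]
  · show X.R (star (p i.rev)) = X.π i
    rw [X.R_star, hp.1.2.2, X.π_star, Fin.rev_rev]
  · rw [ext_transpose, mul_one]
    exact hc.hom j
  · obtain ⟨θ, hθ, h1, h2⟩ := hp.2.2 n hn
    have h4 : (n : ℤ) + 2 * (d - n : ℕ) = 2 * d - n := by
      have : ((d - n : ℕ) : ℤ) = d - n := by omega
      omega
    have hpow := he.pow_hom (d - n) n
    rw [h4] at hpow
    have h5 : ext p n * θ * ext p (2 * d - n) * X.L ^ (d - n) = ext p n := by
      calc ext p n * θ * ext p (2 * d - n) * X.L ^ (d - n)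
          = ext p n * (θ * (ext p (2 * d - n) * X.L ^ (d - n))) := by simp only [mul_assoc]
        _ = ext p n * (θ * X.L ^ (d - n) * ext p n) := by rw [← hpow]; simp only [mul_assoc]
        _ = ext p n := by rw [h1, he.idem]
    have h6 : X.L ^ (d - n) * (ext p n * θ * ext p (2 * d - n)) = ext p (2 * d - n) := by
      calc X.L ^ (d - n) * (ext p n * θ * ext p (2 * d - n))
          = (X.L ^ (d - n) * ext p n) * θ * ext p (2 * d - n) := by simp only [mul_assoc]
        _ = ext p (2 * d - n) * (X.L ^ (d - n) * θ * ext p (2 * d - n)) := by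
          rw [hpow]; simp only [mul_assoc]
        _ = ext p (2 * d - n) := by rw [h2, he.idem]
    refine ⟨star (ext p n * θ * ext p (2 * d - n)),
      X.star_mem (mul_mem_neg (hp.1.ext_mem _) hθ (hp.1.ext_mem _)), ?_, ?_⟩
    · rw [ext_transpose]
      show star (ext p n * θ * ext p (2 * d - n)) * X.L ^ (d - n) * star (ext p (2 * d - n))
        = star (ext p (2 * d - n))
      have h7 := congrArg star h6
      rw [star_mul, star_pow, X.L_star] at h7
      rw [h7, ← star_mul, he.idem]
    · rw [ext_transpose]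
      show X.L ^ (d - n) * star (ext p n * θ * ext p (2 * d - n)) *
        star (ext p (2 * d - (2 * d - n))) = star (ext p (2 * d - (2 * d - n)))
      have h7 := congrArg star h5
      rw [star_mul, star_pow, X.L_star] at h7
      have h8 : 2 * (d : ℤ) - (2 * d - n) = n := by ring
      rw [h7, h8, ← star_mul, he.idem]

open Polynomial in
theorem exists_selfDual {p : Fin (2 * d + 1) → X.C} (hp : X.IsChowLefschetz p) :
    ∃ P, X.IsChowLefschetz P ∧ X.IsSelfDual P ∧
      ∀ (k : ℤ) (M : X.C), star M = M → IsHomogeneous p k M → IsHomogeneous P k M := by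
  have hq := hp.transpose
  obtain ⟨g, hg, w, hw, hgw, hwg, hnil, hRg, hgp, hgM, hgdef⟩ := exists_intertwiner hp hq
  have hgs : star g = g := by
    rw [hgdef, ext_transpose]
    exact LGr.star_inter (ext p)
  have hNs : star (1 - g) = 1 - g := by rw [star_sub, star_one, hgs]
  obtain ⟨s, hs, hvs, hvv, -⟩ := exists_sqrt_one_sub ⟨2 * d + 1, hnil⟩ hNs
  rw [sub_sub_cancel] at hvv
  set v := aeval (1 - g) s with hv
  have hNmem : 1 - g ∈ X.deg 0 := Submodule.sub_mem _ X.one_mem hg
  have hvmem : v ∈ X.deg 0 := aeval_mem hNmem s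
  have hcomm : ∀ M : X.C, g * M = M * g → v * M = M * v := by
    intro M hM
    have h1 : Commute (1 - g) M := by
      show (1 - g) * M = M * (1 - g)
      rw [sub_mul, mul_sub, hM, one_mul, mul_one]
    rw [hv, aeval_eq_sum_range, Finset.sum_mul, Finset.mul_sum]
    refine Finset.sum_congr rfl fun i _ => ?_
    rw [smul_mul_assoc, mul_smul_comm, (h1.pow_left i).eq]
  have h1 : v * (v * w) = 1 := by rw [← mul_assoc, hvv, hgw]
  have h2 : (w * v) * v = 1 := by rw [mul_assoc, hvv, hwg]
  have h3 : w * v = v * w := by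
    calc w * v = w * v * (v * (v * w)) := by rw [h1, mul_one]
      _ = (w * v * v) * (v * w) := by simp only [mul_assoc]
      _ = v * w := by rw [h2, one_mul]
  set w' := w * v with hw'
  have hvw' : v * w' = 1 := by rw [h3, h1]
  have hw'v : w' * v = 1 := h2
  have hw's : star w' = w' := by
    have h4 := congrArg star hvw'
    rw [star_mul, star_one, hvs] at h4
    calc star w' = star w' * (v * w') := by rw [hvw', mul_one]
      _ = (star w' * v) * w' := by rw [mul_assoc]
      _ = w' := by rw [h4, one_mul]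
  have hRv : X.R v = 1 := by
    have h4 : v = aeval (1 - g) (divX s) * (1 - g) + 1 := by
      have h5 := congrArg (aeval (1 - g)) (divX_mul_X_add s)
      rw [map_add, map_mul, aeval_X, hs, aeval_C, map_one] at h5
      rw [hv, ← h5]
    rw [h4, map_add, map_mul, map_sub, map_one, hRg, sub_self, mul_zero, zero_add]
  have hL1 : IsHomogeneous p 1 X.L := hp.2.1
  have hvL : v * X.L = X.L * v := hcomm _ (hgM 1 X.L hL1 hq.2.1)
  refine ⟨fun i => v * p i * w', hp.conj hvmem (mul_mem_zero hw hvmem) hvw' hw'v hRv hvL,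
    fun i => ?_, fun k M hMs hM => ?_⟩
  · show star (v * p i * w') = v * p i.rev * w'
    rw [star_mul (v * p i) w', hw's, star_mul v (p i), hvs]
    have h5 : star (p i) * g = g * p i.rev := by
      have := hgp i.rev
      rw [Fin.rev_rev] at this
      exact this.symm
    calc w' * (star (p i) * v) = w' * (star (p i) * v) * (v * w') := by rw [hvw', mul_one]
      _ = w' * (star (p i) * (v * v)) * w' := by simp only [mul_assoc]
      _ = w' * (v * v * p i.rev) * w' := by rw [hvv, h5]
      _ = (w' * v) * v * p i.rev * w' := by simp only [mul_assoc]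
      _ = v * p i.rev * w' := by rw [hw'v, one_mul]
  · have hMq : IsHomogeneous (fun i => star (p i.rev)) k M := by
      intro j
      rw [ext_transpose]
      exact LGr.hom_transpose (d := d) (e := ext p) hMs hM j
    have hvM := hcomm M (hgM k M hM hMq)
    have hw'M : w' * M = M * w' := by
      calc w' * M = w' * M * (v * w') := by rw [hvw', mul_one]
        _ = w' * (M * v) * w' := by simp only [mul_assoc]
        _ = (w' * v) * M * w' := by rw [← hvM]; simp only [mul_assoc]
        _ = M * w' := by rw [hw'v, one_mul]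
    have hext : ∀ j : ℤ, ext (fun i => v * p i * w') j = v * ext p j * w' := by
      intro j
      by_cases h : j < 0 ∨ 2 * (d : ℤ) < j
      · rw [ext_out _ h, ext_out _ h, mul_zero, zero_mul]
      · obtain ⟨i, rfl⟩ := exists_fin h
        rw [ext_fin, ext_fin]
    intro j
    rw [hext, hext]
    calc M * (v * ext p j * w') = (M * v) * ext p j * w' := by simp only [mul_assoc]
      _ = v * (M * ext p j) * w' := by rw [← hvM]; simp only [mul_assoc]
      _ = v * ext p (j + 2 * k) * (M * w') := by rw [hM j]; simp only [mul_assoc]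
      _ = v * ext p (j + 2 * k) * w' * M := by rw [← hw'M]; simp only [mul_assoc]

theorem exists_isometry {P Q : Fin (2 * d + 1) → X.C} (hP : X.IsChowLefschetz P)
    (hQ : X.IsChowLefschetz Q) (sP : X.IsSelfDual P) (sQ : X.IsSelfDual Q) :
    ∃ g ∈ X.deg 0, star g * g = 1 ∧ g * star g = 1 ∧ IsNilpotent (1 - g) ∧
      g * X.L = X.L * g ∧ ∀ i, g * P i = Q i * g := by
  obtain ⟨g, hg, w, hw, hgw, hwg, hnil, hRg, hgp, hgM, hgdef⟩ := exists_intertwiner hP hQ
  have he := hP.lgr
  have hf := hQ.lgr
  have hstar : star g = LGr.inter d (ext P) (ext Q) := by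
    have hPe : ∀ j : ℤ, star (ext P j) = ext P (2 * d - j) := by
      intro j
      by_cases h : j < 0 ∨ 2 * (d : ℤ) < j
      · rw [ext_out _ h, ext_out P (by omega), star_zero]
      · obtain ⟨i, rfl⟩ := exists_fin h
        rw [ext_fin, ext_rev, sP]
    have hQe : ∀ j : ℤ, star (ext Q j) = ext Q (2 * d - j) := by
      intro j
      by_cases h : j < 0 ∨ 2 * (d : ℤ) < j
      · rw [ext_out _ h, ext_out Q (by omega), star_zero]
      · obtain ⟨i, rfl⟩ := exists_fin h
        rw [ext_fin, ext_rev, sQ]
    rw [hgdef, LGr.inter, LGr.inter, star_sum]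
    refine Finset.sum_nbij' (fun i => 2 * d - i) (fun i => 2 * d - i) ?_ ?_ ?_ ?_ ?_
    · intro i hi
      simp only [Finset.mem_Icc] at hi ⊢
      omega
    · intro i hi
      simp only [Finset.mem_Icc] at hi ⊢
      omega
    · intro i _
      ring
    · intro i _
      ring
    · intro i _
      rw [star_mul, hPe, hQe]
  have key : ∀ {e f : ℤ → X.C}, LGr d X.L e → LGr d X.L f →
      LGr.inter d e f * LGr.inter d f e = 1 := by
    intro e f he hf
    refine he.ext_right fun i => ?_
    rw [mul_assoc, he.inter_mul f hf.out, ← mul_assoc, hf.inter_mul e he.out, he.mid hf, one_mul]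
  refine ⟨g, hg, ?_, ?_, ⟨2 * d + 1, hnil⟩, hgM 1 X.L hP.2.1 hQ.2.1, hgp⟩
  · rw [hstar, hgdef]
    exact key he hf
  · rw [hstar, hgdef]
    exact key hf he

end LCorr

end SDCK
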