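import Pool.Agent.LibSDCK.Basic

/-!
# Chow-Künneth decompositions adapted to a Lefschetz operator

Algebra of families of idempotents `e j` (`j ∈ ℤ`, zero outside `[0, 2d]`) of a ring on which an
element `L` acts as a Lefschetz operator.  The flag `⊕_{j ≥ i} e j` depends on `L` only (it is
the monodromy filtration of `L`), hence `∑ f i * e i` is unipotent for two such families.
-/

namespace SDCK

universe u v

/-- A family of orthogonal idempotents indexed by the degrees `0, …, 2d` (zero in the other
degrees) with sum `1`, for which `L` is homogeneous of degree `2` and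
`L ^ (d - n)` is an isomorphism from degree `n` to degree `2d - n`. -/
structure LGr (d : ℕ) {C : Type u} [Ring C] (L : C) (e : ℤ → C) : Prop where
  out : ∀ j, (j < 0 ∨ 2 * (d : ℤ) < j) → e j = 0
  idem : ∀ j, e j * e j = e j
  ortho : ∀ i j, i ≠ j → e i * e j = 0
  sum : ∑ i ∈ Finset.Icc (0 : ℤ) (2 * d), e i = 1
  hom : ∀ j, L * e j = e (j + 2) * L
  iso : ∀ n : ℕ, n ≤ d → ∃ θ : C, θ * L ^ (d - n) * e n = e n ∧
    L ^ (d - n) * θ * e (2 * d - n) = e (2 * d - n)

namespace LGr

variable {d : ℕ} {C : Type u} [Ring C] {L : C} {e f : ℤ → C}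

theorem pow_hom (he : LGr d L e) (k : ℕ) (j : ℤ) : L ^ k * e j = e (j + 2 * k) * L ^ k := by
  induction k generalizing j with
  | zero => simp
  | succ k ih =>
    rw [pow_succ, mul_assoc, he.hom, ← mul_assoc, ih, mul_assoc]
    congr 2
    push_cast
    ring

/-- `L ^ k` is injective on degree `j` if `k ≤ d - j`. -/
theorem inj (he : LGr d L e) {j : ℤ} {k : ℕ} (h : j + k ≤ d) {x : C}
    (hx : L ^ k * (e j * x) = 0) : e j * x = 0 := by
  by_cases hj : j < 0
  · rw [he.out j (Or.inl hj), zero_mul]
  · obtain ⟨n, rfl⟩ : ∃ n : ℕ, (n : ℤ) = j := ⟨j.toNat, by omega⟩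
    have hn : n + k ≤ d := by exact_mod_cast h
    obtain ⟨θ, hθ, -⟩ := he.iso n (by omega)
    have h1 : L ^ (d - n) * (e n * x) = 0 := by
      have h2 : d - n = (d - n - k) + k := by omega
      rw [h2, pow_add, mul_assoc, hx, mul_zero]
    calc e n * x = θ * L ^ (d - n) * e n * x := by rw [hθ]
      _ = θ * (L ^ (d - n) * (e n * x)) := by simp only [mul_assoc]
      _ = 0 := by rw [h1, mul_zero]

/-- The flag of `f`: elements with zero components in degrees `< i`. -/
def InF (f : ℤ → C) (i : ℤ) (x : C) : Prop := ∀ j < i, f j * x = 0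

theorem inF_of_pow (hf : LGr d L f) {m : ℕ} {i : ℤ} (hi : i + m ≤ d) {y : C}
    (hy : L ^ (m + 1) * y = 0) : InF f i y := by
  intro j hj
  refine hf.inj (k := m + 1) (by push_cast; omega) ?_
  rw [← mul_assoc, hf.pow_hom, mul_assoc, hy, mul_zero]

theorem inF_shift (hf : LGr d L f) {i : ℤ} {y : C} (hy : InF f i y) : InF f (i + 2) (L * y) := by
  intro j hj
  have h := hf.hom (j - 2)
  rw [sub_add_cancel] at h
  rw [← mul_assoc, ← h, mul_assoc, hy (j - 2) (by omega), mul_zero]

theorem inF_shift_pow (hf : LGr d L f) (k : ℕ) {i : ℤ} {y : C} (hy : InF f i y) :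
    InF f (i + 2 * k) (L ^ k * y) := by
  induction k with
  | zero => simpa using hy
  | succ k ih =>
    have := hf.inF_shift ih
    rw [← mul_assoc, ← pow_succ'] at this
    have h2 : i + 2 * ((k + 1 : ℕ) : ℤ) = i + 2 * k + 2 := by push_cast; ring
    rw [h2]
    exact this

theorem inF_low (he : LGr d L e) (hf : LGr d L f) :
    ∀ i : ℕ, i ≤ d → ∀ x : C, InF f i (e i * x) := by
  intro i
  induction i using Nat.strong_induction_on with
  | _ i ih =>
    intro hi x
    by_cases h2 : i < 2
    · refine hf.inF_of_pow (m := d - i) (by push_cast [hi]; omega) ?_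
      rw [← mul_assoc, he.pow_hom, he.out _ (Or.inr (by push_cast [hi]; omega)), zero_mul,
        zero_mul]
    · obtain ⟨n, rfl⟩ : ∃ n, i = n + 2 := ⟨i - 2, by omega⟩
      obtain ⟨θ, -, hθ⟩ := he.iso n (by omega)
      set y := L ^ (d - (n + 2) + 1) * (e (n + 2 : ℕ) * x) with hy
      have hdeg : e (2 * d - n) * y = y := by
        have h3 : y = e (2 * d - n) * (L ^ (d - (n + 2) + 1) * x) := by
          rw [hy, ← mul_assoc, he.pow_hom, mul_assoc]
          congr 2
          push_cast [Nat.sub_add_comm, hi]
          have : ((d - (n + 2) : ℕ) : ℤ) = d - (n + 2) := by omega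
          omega
        rw [h3, ← mul_assoc, he.idem]
      set z := e n * (θ * y) with hz
      have hLz : L ^ (d - n) * z = y := by
        rw [hz, ← mul_assoc, he.pow_hom]
        have h4 : (n : ℤ) + 2 * (d - n : ℕ) = 2 * d - n := by
          have : ((d - n : ℕ) : ℤ) = d - n := by omega
          omega
        rw [h4]
        have h5 : L ^ (d - n) * (θ * y) = y := by
          conv_lhs => rw [← hdeg]
          rw [← mul_assoc, ← mul_assoc, hθ, hdeg]
        rw [mul_assoc, h5, hdeg]
      have h6 : L ^ (d - (n + 2) + 1) * (e (n + 2 : ℕ) * x - L * z) = 0 := by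
        rw [mul_sub, ← hy, ← mul_assoc, ← pow_succ]
        have h7 : d - (n + 2) + 1 + 1 = d - n := by omega
        rw [h7, hLz, sub_self]
      have h8 : InF f (n + 2 : ℕ) (e (n + 2 : ℕ) * x - L * z) :=
        hf.inF_of_pow (m := d - (n + 2)) (by push_cast; omega) h6
      have h9 : InF f (n + 2 : ℕ) (L * z) := by
        have := hf.inF_shift (ih n (by omega) (by omega) (θ * y))
        push_cast
        exact this
      intro j hj
      have h10 := h8 j hj
      rw [mul_sub, h9 j hj, sub_zero] at h10
      exact h10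

/-- The flag of `e` is contained in the flag of `f`. -/
theorem inF_all (he : LGr d L e) (hf : LGr d L f) (i : ℤ) (x : C) : InF f i (e i * x) := by
  by_cases hi : i < 0 ∨ 2 * (d : ℤ) < i
  · rw [he.out i hi, zero_mul]
    intro j _
    rw [mul_zero]
  · rw [not_or, not_lt, not_lt] at hi
    obtain ⟨hi0, hi1⟩ := hi
    by_cases hid : i ≤ d
    · obtain ⟨n, rfl⟩ : ∃ n : ℕ, (n : ℤ) = i := ⟨i.toNat, by omega⟩
      exact he.inF_low hf n (by omega) x
    · obtain ⟨n, hn, rfl⟩ : ∃ n : ℕ, n ≤ d ∧ 2 * (d : ℤ) - n = i :=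
        ⟨(2 * d - i).toNat, by omega, by omega⟩
      obtain ⟨θ, -, hθ⟩ := he.iso n hn
      have h4 : (n : ℤ) + 2 * (d - n : ℕ) = 2 * d - n := by
        have : ((d - n : ℕ) : ℤ) = d - n := by omega
        omega
      have h1 : e (2 * d - n) * x = L ^ (d - n) * (e n * (θ * (e (2 * d - n) * x))) := by
        rw [← mul_assoc (L ^ (d - n)), he.pow_hom, h4, mul_assoc (e (2 * d - n))]
        have h5 : L ^ (d - n) * (θ * (e (2 * d - n) * x)) = e (2 * d - n) * x := by
          rw [← mul_assoc, ← mul_assoc, hθ]
        rw [h5, ← mul_assoc, he.idem]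
      rw [h1]
      have := hf.inF_shift_pow (d - n) (he.inF_low hf n hn (θ * (e (2 * d - n) * x)))
      rw [h4] at this
      exact this

theorem mul_eq_zero_of_lt (he : LGr d L e) (hf : LGr d L f) {i j : ℤ} (h : j < i) :
    f j * e i = 0 := by
  have := he.inF_all hf i 1 j h
  rwa [mul_one] at this

/-- The intertwiner of two families. -/
noncomputable def inter (d : ℕ) (f e : ℤ → C) : C := ∑ i ∈ Finset.Icc (0 : ℤ) (2 * d), f i * e i

theorem inter_mul (he : LGr d L e) (f : ℤ → C) (hf : ∀ j, (j < 0 ∨ 2 * (d : ℤ) < j) → f j = 0)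
    (i : ℤ) : inter d f e * e i = f i * e i := by
  rw [inter, Finset.sum_mul]
  by_cases hi : i ∈ Finset.Icc (0 : ℤ) (2 * d)
  · rw [Finset.sum_eq_single i]
    · rw [mul_assoc, he.idem]
    · intro j _ hj
      rw [mul_assoc, he.ortho j i hj, mul_zero]
    · exact fun h => absurd hi h
  · rw [hf i (by rw [Finset.mem_Icc] at hi; omega), zero_mul]
    refine Finset.sum_eq_zero fun j hj => ?_
    rw [mul_assoc, he.ortho j i (fun h => hi (h ▸ hj)), mul_zero]

theorem mul_inter (hf : LGr d L f) (e : ℤ → C) (he : ∀ j, (j < 0 ∨ 2 * (d : ℤ) < j) → e j = 0)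
    (i : ℤ) : f i * inter d f e = f i * e i := by
  rw [inter, Finset.mul_sum]
  by_cases hi : i ∈ Finset.Icc (0 : ℤ) (2 * d)
  · rw [Finset.sum_eq_single i]
    · rw [← mul_assoc, hf.idem]
    · intro j _ hj
      rw [← mul_assoc, hf.ortho i j (Ne.symm hj), zero_mul]
    · exact fun h => absurd hi h
  · rw [he i (by rw [Finset.mem_Icc] at hi; omega), mul_zero]
    refine Finset.sum_eq_zero fun j hj => ?_
    rw [← mul_assoc, hf.ortho i j (fun h => hi (h ▸ hj)), zero_mul]

theorem inter_comm (he : LGr d L e) (hf : LGr d L f) (i : ℤ) :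
    inter d f e * e i = f i * inter d f e := by
  rw [he.inter_mul f hf.out, hf.mul_inter e he.out]

theorem ext_right (he : LGr d L e) {a b : C} (h : ∀ i, a * e i = b * e i) : a = b := by
  rw [← mul_one a, ← mul_one b, ← he.sum, Finset.mul_sum, Finset.mul_sum]
  exact Finset.sum_congr rfl fun i _ => h i

theorem ext_left (he : LGr d L e) {a b : C} (h : ∀ i, e i * a = e i * b) : a = b := by
  rw [← one_mul a, ← one_mul b, ← he.sum, Finset.sum_mul, Finset.sum_mul]
  exact Finset.sum_congr rfl fun i _ => h i

/-- `M` is homogeneous of degree `k`. -/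
def Hom (e : ℤ → C) (k : ℤ) (M : C) : Prop := ∀ j, M * e j = e (j + 2 * k) * M

theorem inter_commute (he : LGr d L e) (hf : LGr d L f) {k : ℤ} {M : C} (h1 : Hom e k M)
    (h2 : Hom f k M) : inter d f e * M = M * inter d f e := by
  refine he.ext_right fun j => ?_
  rw [mul_assoc, h1 j, ← mul_assoc, he.inter_mul f hf.out, mul_assoc, ← h1 j, ← mul_assoc,
    ← h2 j, mul_assoc, mul_assoc, he.inter_mul f hf.out]

theorem hom_L (he : LGr d L e) : Hom e 1 L := fun j => by
  rw [he.hom j]
  rfl

theorem mid (he : LGr d L e) (hf : LGr d L f) (i : ℤ) : e i * f i * e i = e i := by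
  have h1 : e i * (∑ j ∈ Finset.Icc (0 : ℤ) (2 * d), f j) * e i = e i := by
    rw [hf.sum, mul_one, he.idem]
  rw [Finset.mul_sum, Finset.sum_mul] at h1
  by_cases hi : i ∈ Finset.Icc (0 : ℤ) (2 * d)
  · rw [Finset.sum_eq_single i] at h1
    · exact h1
    · intro j _ hj
      rcases lt_or_gt_of_ne hj with h | h
      · rw [mul_assoc, he.mul_eq_zero_of_lt hf h, mul_zero]
      · rw [hf.mul_eq_zero_of_lt he h, zero_mul]
    · exact fun h => absurd hi h
  · rw [he.out i (by rw [Finset.mem_Icc] at hi; omega)]
    simp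

/-- `1 - ∑ f i * e i` raises the degree. -/
theorem raise (he : LGr d L e) (hf : LGr d L f) {k i : ℤ} (h : k ≤ i) :
    e k * (1 - inter d f e) * e i = 0 := by
  rw [mul_assoc, sub_mul, one_mul, he.inter_mul f hf.out, mul_sub]
  rcases eq_or_lt_of_le h with rfl | h
  · rw [he.idem, ← mul_assoc, he.mid hf, sub_self]
  · rw [he.ortho k i h.ne, ← mul_assoc, hf.mul_eq_zero_of_lt he h, zero_mul, sub_zero]

theorem raise_pow (he : LGr d L e) {N : C} (hN : ∀ k i : ℤ, k ≤ i → e k * N * e i = 0)
    (m : ℕ) : ∀ k i : ℤ, k < i + m → e k * N ^ m * e i = 0 := by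
  induction m with
  | zero =>
    intro k i h
    rw [pow_zero, mul_one, he.ortho k i (by push_cast at h; omega)]
  | succ m ih =>
    intro k i h
    have h1 : e k * N ^ (m + 1) * e i
        = e k * N ^ m * (∑ j ∈ Finset.Icc (0 : ℤ) (2 * d), e j) * (N * e i) := by
      rw [he.sum, mul_one, pow_succ]
      simp only [mul_assoc]
    rw [h1, Finset.mul_sum, Finset.sum_mul]
    refine Finset.sum_eq_zero fun j _ => ?_
    by_cases hj : k < j + m
    · rw [ih k j hj, zero_mul]
    · have h2 : e k * N ^ m * e j * (N * e i) = e k * N ^ m * (e j * N * e i) := by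
        simp only [mul_assoc]
      rw [h2, hN j i (by push_cast at h; omega), mul_zero]

theorem nilpotent (he : LGr d L e) (hf : LGr d L f) : (1 - inter d f e) ^ (2 * d + 1) = 0 := by
  refine he.ext_right fun i => ?_
  refine he.ext_left fun k => ?_
  rw [zero_mul, mul_zero]
  by_cases hi : i < 0
  · rw [he.out i (Or.inl hi), mul_zero, mul_zero]
  · by_cases hk : 2 * (d : ℤ) < k
    · rw [he.out k (Or.inr hk), zero_mul]
    · rw [← mul_assoc]
      exact he.raise_pow (fun k i h => he.raise hf h) (2 * d + 1) k i (by push_cast; omega)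

/-- conjugation by a unit commuting with `L` -/
theorem conj (he : LGr d L e) {v w : C} (hvw : v * w = 1) (hwv : w * v = 1)
    (hvL : v * L = L * v) : LGr d L (fun j => v * e j * w) where
  out j hj := by
    show v * e j * w = 0
    rw [he.out j hj]
    simp
  idem j := by
    show v * e j * w * (v * e j * w) = v * e j * w
    calc v * e j * w * (v * e j * w) = v * e j * (w * v) * e j * w := by simp only [mul_assoc]
      _ = v * (e j * e j) * w := by rw [hwv]; simp only [mul_assoc, mul_one, one_mul]
      _ = _ := by rw [he.idem]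
  ortho i j hij := by
    show v * e i * w * (v * e j * w) = 0
    calc v * e i * w * (v * e j * w) = v * e i * (w * v) * e j * w := by simp only [mul_assoc]
      _ = v * (e i * e j) * w := by rw [hwv]; simp only [mul_assoc, mul_one, one_mul]
      _ = _ := by rw [he.ortho i j hij]; simp
  sum := by
    show ∑ i ∈ Finset.Icc (0 : ℤ) (2 * d), v * e i * w = 1
    rw [← Finset.sum_mul, ← Finset.mul_sum, he.sum, mul_one, hvw]
  hom j := by
    show L * (v * e j * w) = v * e (j + 2) * w * L
    have hwL : w * L = L * w := by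
      calc w * L = w * L * (v * w) := by rw [hvw, mul_one]
        _ = w * (L * v) * w := by simp only [mul_assoc]
        _ = w * v * L * w := by rw [← hvL]; simp only [mul_assoc]
        _ = L * w := by rw [hwv, one_mul]
    calc L * (v * e j * w) = (L * v) * e j * w := by simp only [mul_assoc]
      _ = v * (L * e j) * w := by rw [← hvL]; simp only [mul_assoc]
      _ = v * e (j + 2) * (L * w) := by rw [he.hom]; simp only [mul_assoc]
      _ = _ := by rw [← hwL]; simp only [mul_assoc]
  iso n hn := by
    obtain ⟨θ, h1, h2⟩ := he.iso n hn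
    have hvLk : ∀ k : ℕ, v * L ^ k = L ^ k * v := fun k =>
      (Commute.pow_right (show Commute v L from hvL) k).eq
    refine ⟨v * θ * w, ?_, ?_⟩
    · show v * θ * w * L ^ (d - n) * (v * e n * w) = v * e n * w
      calc v * θ * w * L ^ (d - n) * (v * e n * w)
          = v * θ * w * (L ^ (d - n) * v) * e n * w := by simp only [mul_assoc]
        _ = v * θ * (w * v) * L ^ (d - n) * e n * w := by
          rw [← hvLk]; simp only [mul_assoc]
        _ = v * (θ * L ^ (d - n) * e n) * w := by
          rw [hwv]; simp only [mul_assoc, mul_one, one_mul]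
        _ = _ := by rw [h1]
    · show L ^ (d - n) * (v * θ * w) * (v * e (2 * d - n) * w) = v * e (2 * d - n) * w
      calc L ^ (d - n) * (v * θ * w) * (v * e (2 * d - n) * w)
          = (L ^ (d - n) * v) * θ * (w * v) * e (2 * d - n) * w := by simp only [mul_assoc]
        _ = v * (L ^ (d - n) * θ * e (2 * d - n)) * w := by
          rw [hwv, ← hvLk]; simp only [mul_assoc, mul_one, one_mul]
        _ = _ := by rw [h2]

/-- the transposed family -/
theorem transpose [StarRing C] (he : LGr d L e) (hL : star L = L) :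
    LGr d L (fun j => star (e (2 * d - j))) where
  out j hj := by
    show star (e (2 * d - j)) = 0
    rw [he.out _ (by omega), star_zero]
  idem j := by
    show star (e (2 * d - j)) * star (e (2 * d - j)) = star (e (2 * d - j))
    rw [← star_mul, he.idem]
  ortho i j hij := by
    show star (e (2 * d - i)) * star (e (2 * d - j)) = 0
    rw [← star_mul, he.ortho _ _ (by omega), star_zero]
  sum := by
    show ∑ i ∈ Finset.Icc (0 : ℤ) (2 * d), star (e (2 * d - i)) = 1
    rw [← star_sum]
    have h1 : ∑ i ∈ Finset.Icc (0 : ℤ) (2 * d), e (2 * d - i)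
        = ∑ i ∈ Finset.Icc (0 : ℤ) (2 * d), e i := by
      refine Finset.sum_nbij' (fun i => 2 * d - i) (fun i => 2 * d - i) ?_ ?_ ?_ ?_ ?_
      · intro i hi
        simp only [Finset.mem_Icc] at hi ⊢
        omega
      · intro i hi
        simp only [Finset.mem_Icc] at hi ⊢
        omega
      · intro i _
        ring
      · intro i _
        ring
      · intro i _
        rfl
    rw [h1, he.sum, star_one]
  hom j := by
    show L * star (e (2 * d - j)) = star (e (2 * d - (j + 2))) * L
    have h1 := he.hom (2 * d - (j + 2))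
    have h2 : 2 * (d : ℤ) - (j + 2) + 2 = 2 * d - j := by ring
    rw [h2] at h1
    have h3 := congrArg star h1
    rw [star_mul, star_mul, hL] at h3
    exact h3.symm
  iso n hn := by
    obtain ⟨θ, h1, h2⟩ := he.iso n hn
    have h4 : (n : ℤ) + 2 * (d - n : ℕ) = 2 * d - n := by
      have : ((d - n : ℕ) : ℤ) = d - n := by omega
      omega
    have hpow := he.pow_hom (d - n) n
    rw [h4] at hpow
    -- normalised inverse
    have h5 : e n * θ * e (2 * d - n) * L ^ (d - n) = e n := by
      calc e n * θ * e (2 * d - n) * L ^ (d - n)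
          = e n * (θ * (e (2 * d - n) * L ^ (d - n))) := by simp only [mul_assoc]
        _ = e n * (θ * L ^ (d - n) * e n) := by rw [← hpow]; simp only [mul_assoc]
        _ = e n := by rw [h1, he.idem]
    have h6 : L ^ (d - n) * (e n * θ * e (2 * d - n)) = e (2 * d - n) := by
      calc L ^ (d - n) * (e n * θ * e (2 * d - n))
          = (L ^ (d - n) * e n) * θ * e (2 * d - n) := by simp only [mul_assoc]
        _ = e (2 * d - n) * (L ^ (d - n) * θ * e (2 * d - n)) := by
          rw [hpow]; simp only [mul_assoc]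
        _ = e (2 * d - n) := by rw [h2, he.idem]
    refine ⟨star (e n * θ * e (2 * d - n)), ?_, ?_⟩
    · show star (e n * θ * e (2 * d - n)) * L ^ (d - n) * star (e (2 * d - n))
        = star (e (2 * d - n))
      have h7 := congrArg star h6
      rw [star_mul, star_pow, hL] at h7
      rw [h7, ← star_mul, he.idem]
    · show L ^ (d - n) * star (e n * θ * e (2 * d - n)) * star (e (2 * d - (2 * d - n)))
        = star (e (2 * d - (2 * d - n)))
      have h7 := congrArg star h5
      rw [star_mul, star_pow, hL] at h7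
      have h8 : 2 * (d : ℤ) - (2 * d - n) = n := by ring
      rw [h7, h8, ← star_mul, he.idem]

theorem hom_transpose [StarRing C] {k : ℤ} {M : C} (hM : star M = M) (h : Hom e k M) :
    Hom (fun j => star (e (2 * (d : ℤ) - j))) k M := by
  intro j
  show M * star (e (2 * d - j)) = star (e (2 * d - (j + 2 * k))) * M
  have h1 := h (2 * d - (j + 2 * k))
  have h2 : 2 * (d : ℤ) - (j + 2 * k) + 2 * k = 2 * d - j := by ring
  rw [h2] at h1
  have h3 := congrArg star h1
  rw [star_mul, star_mul, hM] at h3
  exact h3.symm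

theorem star_inter [StarRing C] (e : ℤ → C) :
    star (inter d (fun j => star (e (2 * (d : ℤ) - j))) e)
      = inter d (fun j => star (e (2 * (d : ℤ) - j))) e := by
  rw [inter, star_sum]
  refine Finset.sum_nbij' (fun i => 2 * d - i) (fun i => 2 * d - i) ?_ ?_ ?_ ?_ ?_
  · intro i hi
    simp only [Finset.mem_Icc] at hi ⊢
    omega
  · intro i hi
    simp only [Finset.mem_Icc] at hi ⊢
    omega
  · intro i _
    ring
  · intro i _
    ring
  · intro i _
    show star (star (e (2 * d - i)) * e i) = star (e (2 * d - (2 * d - i))) * e (2 * d - i)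
    have h8 : 2 * (d : ℤ) - (2 * d - i) = i := by ring
    rw [star_mul, star_star, h8]

end LGr

end SDCK
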