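import Pool.Agent.LibSDCK.Cancel

/-!
# Orthogonal sums of formal data and Chow-Künneth decompositions
-/

namespace SDCK

universe u v

namespace Corr

variable {d : ℕ}

/-- The algebra of `X` is, compatibly with the involution and the action on cohomology, the corner
of the algebra of `Y` at the idempotent `i 1`: the motive of `X` is an orthogonal summand of the
motive of `Y`. -/
structure Summand (X Y : Corr.{u, v} d) where
  i : X.A →ₙ+* Y.A
  j : X.H →ₙ+* Y.H
  i_inj : Function.Injective i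
  j_inj : Function.Injective j
  i_star : ∀ a, i (star a) = star (i a)
  i_corner : ∀ b, ∃ a, i a = i 1 * b * i 1
  R_i : ∀ a, Y.R (i a) = j (X.R a)

/-- `Y` is the orthogonal sum of `X` and `N`.

Examples: the blow-up `Y` of `X` in `Z`, with `i α = σ^* α σ_*` for `X` and `N` the sum of the
twists `h(Z)(-j)`, `1 ≤ j < codim Z`; a generically finite `σ : Y → X` of degree `r`, with
`i α = (1/r) σ^* α σ_*`. -/
structure OrthoSum (X N Y : Corr.{u, v} d) where
  fst : Summand X Y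
  snd : Summand N Y
  one_add_one : fst.i 1 + snd.i 1 = 1
  π_add : ∀ k, fst.j (X.π k) + snd.j (N.π k) = Y.π k

/-- Homologically trivial correspondences on `X` are nilpotent. -/
def IsNil (X : Corr.{u, v} d) : Prop := ∀ a : X.A, X.R a = 0 → IsNilpotent a

/-- The Künneth projectors of `X` are algebraic. -/
def HasKunneth (X : Corr.{u, v} d) : Prop := ∀ k, ∃ a : X.A, X.R a = X.π k

/-- If homologically trivial correspondences are nilpotent and the Künneth projectors are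
algebraic, there is a self-dual Chow-Künneth decomposition. -/
theorem exists_selfDual_of_isNil (X : Corr.{u, v} d) (hn : X.IsNil) (hk : X.HasKunneth) :
    ∃ P, X.IsSelfDualCK P := by
  obtain ⟨P, hP, hRP⟩ := CompleteOrthogonalIdempotents.lift_of_isNilpotent_ker X.R
    (fun a ha => hn a ha) X.π_complete (fun k => hk k)
  have hP' : X.IsCK P := ⟨hP, fun i => congrFun hRP i⟩
  have hlow : X.IsLowerCK (fun i => P (low i)) := by
    refine ⟨⟨fun i => hP.idem _, ?_⟩, fun i => hP'.2 _⟩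
    intro i j hij
    exact hP.ortho (fun h => hij (low_injective h))
  have h3 : ∃ p, X.IsLowerCK p ∧ IsNilpotent (star (∑ i, p i) * ∑ i, p i) := by
    refine ⟨_, hlow, hn _ ?_⟩
    rw [star_sum, Finset.sum_mul, map_sum]
    refine Finset.sum_eq_zero fun i _ => ?_
    rw [Finset.mul_sum, map_sum]
    exact Finset.sum_eq_zero fun j _ => R_star_mul hlow i j
  have h4 := (X.criterion).out 2 0
  exact h4.1 h3

namespace OrthoSum

variable {X N Y : Corr.{u, v} d} (D : OrthoSum X N Y)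

/-- exchange the two summands -/
def symm : OrthoSum N X Y where
  fst := D.snd
  snd := D.fst
  one_add_one := by rw [add_comm, D.one_add_one]
  π_add := fun k => by rw [add_comm, D.π_add]

theorem i₁_one_mul (a : X.A) : D.fst.i 1 * D.fst.i a = D.fst.i a := by rw [← map_mul, one_mul]

theorem i₁_mul_one (a : X.A) : D.fst.i a * D.fst.i 1 = D.fst.i a := by rw [← map_mul, mul_one]

theorem one_mul_one : D.fst.i 1 * D.snd.i 1 = 0 := by
  have h1 : D.snd.i 1 = 1 - D.fst.i 1 := by rw [← D.one_add_one]; abel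
  rw [h1, mul_sub, mul_one, D.i₁_one_mul, sub_self]

theorem i₁_mul_i₂ (a : X.A) (b : N.A) : D.fst.i a * D.snd.i b = 0 := by
  have h1 : D.snd.i b = D.snd.i 1 * D.snd.i b := by rw [← map_mul, one_mul]
  rw [← D.i₁_mul_one a, h1, mul_assoc, ← mul_assoc (D.fst.i 1), D.one_mul_one, zero_mul, mul_zero]

theorem j₁_one : D.fst.j 1 = Y.R (D.fst.i 1) := by
  have h1 : X.R 1 = 1 := map_one X.R
  rw [D.fst.R_i, h1]

theorem j₁_mul_j₂ (a : X.H) (b : N.H) : D.fst.j a * D.snd.j b = 0 := by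
  have h1 : D.fst.j a = D.fst.j a * D.fst.j 1 := by rw [← map_mul, mul_one]
  have h2 : D.snd.j b = D.snd.j 1 * D.snd.j b := by rw [← map_mul, one_mul]
  have h3 : D.fst.j 1 * D.snd.j 1 = 0 := by
    rw [D.j₁_one]
    have h4 : D.snd.j 1 = Y.R (D.snd.i 1) := D.symm.j₁_one
    rw [h4, ← map_mul, D.one_mul_one, map_zero]
  rw [h1, h2, mul_assoc, ← mul_assoc (D.fst.j 1), h3, zero_mul, mul_zero]

theorem j₁_one_mul_π (k : Fin (2 * d + 1)) : D.fst.j 1 * Y.π k = D.fst.j (X.π k) := by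
  rw [← D.π_add, mul_add, D.j₁_mul_j₂, add_zero, ← map_mul, one_mul]

theorem π_mul_j₁_one (k : Fin (2 * d + 1)) : Y.π k * D.fst.j 1 = D.fst.j (X.π k) := by
  have h1 : D.snd.j (N.π k) * D.fst.j 1 = 0 := D.symm.j₁_mul_j₂ _ _
  rw [← D.π_add, add_mul, h1, add_zero, ← map_mul, mul_one]

/-- the sum of Chow-Künneth decompositions of the summands -/
theorem isCK_add {p : Fin (2 * d + 1) → X.A} {c : Fin (2 * d + 1) → N.A} (hp : X.IsCK p)
    (hc : N.IsCK c) : Y.IsCK (fun k => D.fst.i (p k) + D.snd.i (c k)) := by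
  have h12 := D.i₁_mul_i₂
  have h21 : ∀ (b : N.A) (a : X.A), D.snd.i b * D.fst.i a = 0 := D.symm.i₁_mul_i₂
  have hmul : ∀ k l, (D.fst.i (p k) + D.snd.i (c k)) * (D.fst.i (p l) + D.snd.i (c l)) =
      D.fst.i (p k * p l) + D.snd.i (c k * c l) := by
    intro k l
    rw [add_mul, mul_add, mul_add, h12, h21, add_zero, zero_add, map_mul, map_mul]
  refine ⟨⟨⟨fun k => ?_, fun k l hkl => ?_⟩, ?_⟩, fun k => ?_⟩
  · show _ * _ = _
    rw [hmul, hp.1.idem k, hc.1.idem k]
  · show _ * _ = _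
    rw [hmul, hp.1.ortho hkl, hc.1.ortho hkl, map_zero, map_zero, add_zero]
  · rw [Finset.sum_add_distrib, ← map_sum, ← map_sum, hp.1.complete, hc.1.complete,
      D.one_add_one]
  · rw [map_add, D.fst.R_i, D.snd.R_i, hp.2, hc.2, D.π_add]

theorem isSelfDualCK_add {p : Fin (2 * d + 1) → X.A} {c : Fin (2 * d + 1) → N.A}
    (hp : X.IsSelfDualCK p) (hc : N.IsSelfDualCK c) :
    Y.IsSelfDualCK (fun k => D.fst.i (p k) + D.snd.i (c k)) := by
  refine ⟨D.isCK_add hp.1 hc.1, fun k => ?_⟩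
  rw [star_add, ← D.fst.i_star, ← D.snd.i_star, hp.2, hc.2]

/-- A Chow-Künneth decomposition of `Y` whose projectors commute with `i₁ 1` comes from `X`. -/
theorem exists_of_commute {P : Fin (2 * d + 1) → Y.A} (hP : Y.IsCK P)
    (hcom : ∀ k, D.fst.i 1 * P k = P k * D.fst.i 1) :
    ∃ p : Fin (2 * d + 1) → X.A, X.IsCK p ∧ (∀ k, D.fst.i (p k) = D.fst.i 1 * P k) ∧
      ((∀ k, star (P k) = P k.rev) → ∀ k, star (p k) = p k.rev) := by
  have h1 : ∀ k, D.fst.i 1 * P k * D.fst.i 1 = D.fst.i 1 * P k := by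
    intro k
    rw [hcom, mul_assoc, ← map_mul, mul_one]
  choose p hp using fun k => D.fst.i_corner (P k)
  have hp' : ∀ k, D.fst.i (p k) = D.fst.i 1 * P k := fun k => by rw [hp, h1]
  refine ⟨p, ⟨⟨⟨fun k => ?_, fun k l hkl => ?_⟩, ?_⟩, fun k => ?_⟩, hp', fun hs k => ?_⟩
  · apply D.fst.i_inj
    rw [map_mul, hp', ← mul_assoc, h1, mul_assoc, hP.1.idem k]
  · apply D.fst.i_inj
    show D.fst.i (p k * p l) = D.fst.i 0
    rw [map_mul, hp', hp', ← mul_assoc, h1, mul_assoc, hP.1.ortho hkl, mul_zero, map_zero]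
  · apply D.fst.i_inj
    rw [map_sum]
    simp only [hp']
    rw [← Finset.mul_sum, hP.1.complete, mul_one]
  · apply D.fst.j_inj
    rw [← D.fst.R_i, hp', map_mul, ← D.j₁_one, hP.2, D.j₁_one_mul_π]
  · apply D.fst.i_inj
    rw [D.fst.i_star, hp', hp', star_mul, hs, ← D.fst.i_star, star_one, hcom]

/-- Every Chow-Künneth decomposition of `Y` is conjugate to a sum of decompositions of `X`
and of `N`, if the homologically trivial correspondences on `N` are nilpotent. -/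
theorem exists_adapted (hN : N.IsNil) {P : Fin (2 * d + 1) → Y.A} (hP : Y.IsCK P) :
    ∃ g h : Y.A, g * h = 1 ∧ h * g = 1 ∧ Y.R g = 1 ∧
      ((∀ k, star (P k) = P k.rev) → h = star g) ∧
      ∃ (p : Fin (2 * d + 1) → X.A) (c : Fin (2 * d + 1) → N.A), X.IsCK p ∧ N.IsCK c ∧
        (∀ k, g * P k * h = D.fst.i (p k) + D.snd.i (c k)) ∧
        ((∀ k, star (P k) = P k.rev) →
          (∀ k, star (p k) = p k.rev) ∧ ∀ k, star (c k) = c k.rev) := by
  -- the Künneth projectors of `N` are algebraic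
  have hK : N.HasKunneth := by
    intro k
    obtain ⟨a, ha⟩ := D.snd.i_corner (P k)
    refine ⟨a, D.snd.j_inj ?_⟩
    have h1 : D.snd.j 1 = Y.R (D.snd.i 1) := D.symm.j₁_one
    rw [← D.snd.R_i, ha, map_mul, map_mul, hP.2, ← h1]
    have h2 : D.snd.j 1 * Y.π k = D.snd.j (N.π k) := D.symm.j₁_one_mul_π k
    rw [h2, ← map_mul, mul_one]
  obtain ⟨c₀, hc₀⟩ := N.exists_selfDual_of_isNil hN hK
  have hRe : Y.R (D.snd.i 1) = D.snd.j 1 := D.symm.j₁_one.symm
  obtain ⟨g, h, hgh, hhg, hRg, hRh, hcom, hstar⟩ := exists_conj Y.R P (fun k => D.snd.i (c₀ k))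
    hP.1 ⟨fun k => by
        show _ * _ = _
        rw [← map_mul, hc₀.1.1.idem k], fun k l hkl => by
        show D.snd.i (c₀ k) * D.snd.i (c₀ l) = 0
        rw [← map_mul, hc₀.1.1.ortho hkl, map_zero]⟩ (D.snd.i 1)
    (by rw [← map_sum, hc₀.1.1.complete])
    (fun k => by rw [D.snd.R_i, hc₀.1.2, hP.2, hRe]; exact (D.symm.j₁_one_mul_π k).symm)
    (fun k => by rw [D.snd.R_i, hc₀.1.2, hP.2, hRe]; exact (D.symm.π_mul_j₁_one k).symm)
    (fun a ha hRa => by
      obtain ⟨b, hb⟩ := D.snd.i_corner a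
      rw [ha] at hb
      have h1 : N.R b = 0 := D.snd.j_inj (by rw [← D.snd.R_i, hb, hRa, map_zero])
      rw [← hb]
      obtain ⟨m, hm⟩ := hN b h1
      refine ⟨m + 1, ?_⟩
      have key : ∀ m : ℕ, D.snd.i b ^ (m + 1) = D.snd.i (b ^ (m + 1)) := by
        intro m
        induction m with
        | zero => simp
        | succ m ih => rw [pow_succ, ih, ← map_mul, ← pow_succ]
      rw [key, pow_succ, hm, zero_mul, map_zero])
  have hP' : Y.IsCK (fun k => g * P k * h) := by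
    refine ⟨⟨⟨fun k => ?_, fun k l hkl => ?_⟩, ?_⟩, fun k => ?_⟩
    · show g * P k * h * (g * P k * h) = g * P k * h
      calc g * P k * h * (g * P k * h) = g * P k * (h * g) * P k * h := by noncomm_ring
        _ = g * (P k * P k) * h := by rw [hhg]; noncomm_ring
        _ = g * P k * h := by rw [hP.1.idem k]
    · show g * P k * h * (g * P l * h) = 0
      calc g * P k * h * (g * P l * h) = g * P k * (h * g) * P l * h := by noncomm_ring
        _ = g * (P k * P l) * h := by rw [hhg]; noncomm_ring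
        _ = 0 := by rw [hP.1.ortho hkl]; simp
    · rw [← Finset.sum_mul, ← Finset.mul_sum, hP.1.complete, mul_one, hgh]
    · rw [map_mul, map_mul, hRg, hRh, hP.2, one_mul, mul_one]
  have hst : (∀ k, star (P k) = P k.rev) → h = star g := fun hs =>
    hstar Y.starA Fin.revPerm (fun k => hs k) fun k => by
      show star (D.snd.i (c₀ k)) = D.snd.i (c₀ k.rev)
      rw [← D.snd.i_star, hc₀.2]
  have hs' : (∀ k, star (P k) = P k.rev) → ∀ k, star (g * P k * h) = g * P k.rev * h := by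
    intro hs k
    rw [star_mul, star_mul, hs, hst hs, star_star, mul_assoc]
  have hcom2 : ∀ k, D.snd.i 1 * (g * P k * h) = (g * P k * h) * D.snd.i 1 := hcom
  have hcom1 : ∀ k, D.fst.i 1 * (g * P k * h) = (g * P k * h) * D.fst.i 1 := by
    intro k
    have h1 : D.fst.i 1 = 1 - D.snd.i 1 := by rw [← D.one_add_one]; abel
    rw [h1, sub_mul, mul_sub, one_mul, mul_one, hcom2]
  obtain ⟨p, hp, hp1, hp2⟩ := D.exists_of_commute hP' hcom1
  obtain ⟨c, hc, hc1, hc2⟩ := D.symm.exists_of_commute hP' hcom2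
  refine ⟨g, h, hgh, hhg, hRg, hst, p, c, hp, hc, fun k => ?_, fun hs => ⟨hp2 (hs' hs),
    hc2 (hs' hs)⟩⟩
  have h1 : D.snd.i (c k) = D.snd.i 1 * (g * P k * h) := hc1 k
  rw [hp1, h1, ← add_mul, D.one_add_one, one_mul]

end OrthoSum

/-- `Y` arises from `X` by adding a summand `N` with nilpotent homologically trivial
correspondences and algebraic Künneth projectors, for instance by blowing up points and curves. -/
def NilStep (X Y : Corr.{u, v} d) : Prop :=
  ∃ N : Corr.{u, v} d, N.IsNil ∧ N.HasKunneth ∧ Nonempty (OrthoSum X N Y)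

theorem NilStep.iff {X Y : Corr.{u, v} d} (h : NilStep X Y) :
    ((∃ p, X.IsCK p) ↔ ∃ p, Y.IsCK p) ∧
      ((∃ p, X.IsSelfDualCK p) ↔ ∃ p, Y.IsSelfDualCK p) := by
  obtain ⟨N, hN, hK, ⟨D⟩⟩ := h
  obtain ⟨c, hc⟩ := N.exists_selfDual_of_isNil hN hK
  refine ⟨⟨fun ⟨p, hp⟩ => ⟨_, D.isCK_add hp hc.1⟩, fun ⟨P, hP⟩ => ?_⟩,
    ⟨fun ⟨p, hp⟩ => ⟨_, D.isSelfDualCK_add hp hc⟩, fun ⟨P, hP⟩ => ?_⟩⟩
  · obtain ⟨g, h, -, -, -, -, p, c', hp, -⟩ := D.exists_adapted hN hP
    exact ⟨p, hp⟩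
  · obtain ⟨g, h, -, -, -, -, p, c', hp, -, -, hs⟩ := D.exists_adapted hN hP.1
    exact ⟨p, hp, (hs hP.2).1⟩

theorem eqvGen_iff {X Y : Corr.{u, v} d} (h : Relation.EqvGen NilStep X Y) :
    ((∃ p, X.IsCK p) ↔ ∃ p, Y.IsCK p) ∧
      ((∃ p, X.IsSelfDualCK p) ↔ ∃ p, Y.IsSelfDualCK p) := by
  induction h with
  | rel X Y h => exact h.iff
  | refl X => exact ⟨Iff.rfl, Iff.rfl⟩
  | symm X Y _ ih => exact ⟨ih.1.symm, ih.2.symm⟩
  | trans X Y Z _ _ ih1 ih2 => exact ⟨ih1.1.trans ih2.1, ih1.2.trans ih2.2⟩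

end Corr

end SDCK
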