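import Pool.Agent.LibSDCK.Basic

/-!
# Products: self-duality is automatic after multiplication by a hyperbolic factor
-/

namespace SDCK

universe u v u' v' u'' v''

/-- The formal data of a product `Z = X × Y`: correspondences `α × Δ_Y` and `Δ_X × β`, graded
endomorphisms `φ ⊗ 1` and `1 ⊗ ψ`, and the Künneth formula for the Künneth projectors. -/
structure IsProduct {d δ : ℕ} (X : Corr.{u, v} d) (Y : Corr.{u', v'} δ)
    (Z : Corr.{u'', v''} (d + δ)) where
  /-- `α ↦ α × Δ_Y` -/
  i : X.A →+* Z.A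
  /-- `β ↦ Δ_X × β` -/
  j : Y.A →+* Z.A
  i_star : ∀ a, i (star a) = star (i a)
  j_star : ∀ b, j (star b) = star (j b)
  comm : ∀ a b, i a * j b = j b * i a
  /-- `φ ↦ φ ⊗ 1` -/
  I : X.H →+* Z.H
  /-- `ψ ↦ 1 ⊗ ψ` -/
  J : Y.H →+* Z.H
  R_i : ∀ a, Z.R (i a) = I (X.R a)
  R_j : ∀ b, Z.R (j b) = J (Y.R b)
  kunneth : ∀ n, Z.π n = ∑ m : Fin (2 * d + 1), ∑ l : Fin (2 * δ + 1),
    if (m : ℕ) + l = n then I (X.π m) * J (Y.π l) else 0

/-- Grouping a complete orthogonal family along a map. -/
theorem group_complete {A : Type u} [Ring A] {κ ν : Type*} [Fintype κ] [Fintype ν]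
    [DecidableEq ν] {w : κ → A} (hw : CompleteOrthogonalIdempotents w) (φ : κ → ν) :
    CompleteOrthogonalIdempotents (fun n => ∑ x, if φ x = n then w x else 0) := by
  classical
  rw [CompleteOrthogonalIdempotents.iff_ortho_complete]
  constructor
  · intro n n' hnn
    rw [Finset.sum_mul]
    refine Finset.sum_eq_zero fun x _ => ?_
    rw [Finset.mul_sum]
    refine Finset.sum_eq_zero fun y _ => ?_
    by_cases h1 : φ x = n
    · by_cases h2 : φ y = n'
      · rw [if_pos h1, if_pos h2]
        exact hw.ortho (fun h => hnn (by rw [← h1, ← h2, h]))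
      · rw [if_neg h2, mul_zero]
    · rw [if_neg h1, zero_mul]
  · rw [Finset.sum_comm]
    simp only [Finset.sum_ite_eq, Finset.mem_univ, if_true]
    exact hw.complete

/-- If `X` has a Chow-Künneth decomposition and `Y` has a self-dual one with a hyperbolic
splitting `a`, then `X × Y` has a self-dual Chow-Künneth decomposition. -/
theorem product_selfDual {d δ : ℕ} {X : Corr.{u, v} d} {Y : Corr.{u', v'} δ}
    {Z : Corr.{u'', v''} (d + δ)} (h : IsProduct X Y Z) {p : Fin (2 * d + 1) → X.A}
    (hp : X.IsCK p) {e : Fin (2 * δ + 1) → Y.A} (he : Y.IsSelfDualCK e) (a : Y.A)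
    (ha : a * a = a) (has : star a = 1 - a) (hae : ∀ l, a * e l = e l * a) :
    ∃ P, Z.IsSelfDualCK P := by
  classical
  let q : Fin (2 * d + 1) → X.A := fun m => star (p m.rev)
  have hq : X.IsCK q := by
    refine ⟨CompleteOrthogonalIdempotents.iff_ortho_complete.2 ⟨fun m n hmn => ?_, ?_⟩,
      fun m => ?_⟩
    · change star (p m.rev) * star (p n.rev) = 0
      rw [← star_mul, hp.1.ortho (fun h => hmn (Fin.rev_injective h).symm), star_zero]
    · change ∑ m : Fin (2 * d + 1), star (p m.rev) = 1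
      have h0 : ∑ m : Fin (2 * d + 1), p m.rev = ∑ m, p m := Equiv.sum_comp Fin.revPerm p
      rw [← star_sum, h0, hp.1.complete, star_one]
    · change X.R (star (p m.rev)) = _
      rw [X.R_star, hp.2, X.π_star, Fin.rev_rev]
  have ha' : a * (1 - a) = 0 := by rw [mul_sub, mul_one, ha, sub_self]
  have ha'' : (1 - a) * a = 0 := by rw [sub_mul, one_mul, ha, sub_self]
  have haa : (1 - a) * (1 - a) = 1 - a := by rw [mul_sub, mul_one, ha'', sub_zero]
  have hae' : ∀ l, (1 - a) * e l = e l * (1 - a) := fun l => by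
    rw [sub_mul, mul_sub, one_mul, mul_one, hae]
  -- the refined family
  let w : Fin (2 * d + 1) × Fin (2 * δ + 1) → Z.A := fun x =>
    h.i (p x.1) * h.j (e x.2 * a) + h.i (q x.1) * h.j (e x.2 * (1 - a))
  have hpp := hp.1.toOrthogonalIdempotents.mul_eq
  have hqq := hq.1.toOrthogonalIdempotents.mul_eq
  have hee := he.1.1.toOrthogonalIdempotents.mul_eq
  have hsame : ∀ (s t : X.A) (b b' : Y.A),
      (h.i s * h.j b) * (h.i t * h.j b') = h.i (s * t) * h.j (b * b') := by
    intro s t b b'
    calc (h.i s * h.j b) * (h.i t * h.j b') = h.i s * (h.j b * h.i t) * h.j b' := by noncomm_ring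
      _ = h.i s * (h.i t * h.j b) * h.j b' := by rw [h.comm]
      _ = (h.i s * h.i t) * (h.j b * h.j b') := by noncomm_ring
      _ = h.i (s * t) * h.j (b * b') := by rw [map_mul, map_mul]
  have eaea : ∀ l l', (e l * a) * (e l' * a) = if l = l' then e l * a else 0 := by
    intro l l'
    calc (e l * a) * (e l' * a) = e l * (a * e l') * a := by noncomm_ring
      _ = (e l * e l') * (a * a) := by rw [hae]; noncomm_ring
      _ = if l = l' then e l * a else 0 := by rw [hee, ha]; split_ifs <;> simp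
  have ebeb : ∀ l l', (e l * (1 - a)) * (e l' * (1 - a))
      = if l = l' then e l * (1 - a) else 0 := by
    intro l l'
    calc (e l * (1 - a)) * (e l' * (1 - a)) = e l * ((1 - a) * e l') * (1 - a) := by noncomm_ring
      _ = (e l * e l') * ((1 - a) * (1 - a)) := by rw [hae']; noncomm_ring
      _ = if l = l' then e l * (1 - a) else 0 := by rw [hee, haa]; split_ifs <;> simp
  have eaeb : ∀ l l', (e l * a) * (e l' * (1 - a)) = 0 := by
    intro l l'
    calc (e l * a) * (e l' * (1 - a)) = e l * (a * e l') * (1 - a) := by noncomm_ring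
      _ = (e l * e l') * (a * (1 - a)) := by rw [hae]; noncomm_ring
      _ = 0 := by rw [ha', mul_zero]
  have ebea : ∀ l l', (e l * (1 - a)) * (e l' * a) = 0 := by
    intro l l'
    calc (e l * (1 - a)) * (e l' * a) = e l * ((1 - a) * e l') * a := by noncomm_ring
      _ = (e l * e l') * ((1 - a) * a) := by rw [hae']; noncomm_ring
      _ = 0 := by rw [ha'', mul_zero]
  have hw : CompleteOrthogonalIdempotents w := by
    rw [CompleteOrthogonalIdempotents.iff_ortho_complete]
    constructor
    · intro x y hxy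
      change (h.i (p x.1) * h.j (e x.2 * a) + h.i (q x.1) * h.j (e x.2 * (1 - a)))
        * (h.i (p y.1) * h.j (e y.2 * a) + h.i (q y.1) * h.j (e y.2 * (1 - a))) = 0
      rw [add_mul, mul_add, mul_add, hsame, hsame, hsame, hsame, eaea, ebeb, eaeb, ebea,
        map_zero, mul_zero, mul_zero, add_zero, zero_add, hpp, hqq]
      by_cases h1 : x.1 = y.1
      · have h2 : x.2 ≠ y.2 := fun h2 => hxy (Prod.ext h1 h2)
        rw [if_neg h2, if_neg h2]; simp
      · rw [if_neg h1, if_neg h1]; simp
    · change ∑ x : Fin (2 * d + 1) × Fin (2 * δ + 1),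
        (h.i (p x.1) * h.j (e x.2 * a) + h.i (q x.1) * h.j (e x.2 * (1 - a))) = 1
      rw [Finset.sum_add_distrib, Fintype.sum_prod_type, Fintype.sum_prod_type]
      simp only [← Finset.mul_sum, ← Finset.sum_mul, ← map_sum, he.1.1.complete, hp.1.complete,
        hq.1.complete, map_one, one_mul]
      rw [← map_add]; simp
  have hstar : ∀ x, star (w x) = w (x.1.rev, x.2.rev) := by
    intro x
    change star (h.i (p x.1) * h.j (e x.2 * a) + h.i (q x.1) * h.j (e x.2 * (1 - a)))
      = h.i (p x.1.rev) * h.j (e x.2.rev * a) + h.i (q x.1.rev) * h.j (e x.2.rev * (1 - a))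
    have h1 : star (e x.2 * a) = e x.2.rev * (1 - a) := by
      rw [star_mul, has, he.2, hae']
    have h2 : star (e x.2 * (1 - a)) = e x.2.rev * a := by
      rw [star_mul, star_sub, star_one, has, sub_sub_cancel, he.2, hae]
    have h3 : star (q x.1) = p x.1.rev := by
      change star (star (p x.1.rev)) = _
      rw [star_star]
    have h4 : star (p x.1) = q x.1.rev := by
      change _ = star (p x.1.rev.rev)
      rw [Fin.rev_rev]
    rw [star_add, star_mul, star_mul, ← h.i_star, ← h.i_star, ← h.j_star, ← h.j_star, h1, h2, h3,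
      h4, ← h.comm, ← h.comm]
    exact add_comm _ _
  have hR : ∀ x, Z.R (w x) = h.I (X.π x.1) * h.J (Y.π x.2) := by
    intro x
    change Z.R (h.i (p x.1) * h.j (e x.2 * a) + h.i (q x.1) * h.j (e x.2 * (1 - a))) = _
    rw [map_add, map_mul Z.R (h.i _), map_mul Z.R (h.i _), h.R_i, h.R_i, h.R_j, h.R_j, hp.2, hq.2,
      ← mul_add, ← map_add, ← map_add, ← mul_add, add_sub_cancel, mul_one, he.1.2]
  -- grouping
  let φ : Fin (2 * d + 1) × Fin (2 * δ + 1) → Fin (2 * (d + δ) + 1) := fun x =>
    ⟨x.1 + x.2, by omega⟩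
  have hφrev : ∀ x, φ (x.1.rev, x.2.rev) = (φ x).rev := by
    intro x
    apply Fin.ext
    simp only [φ, Fin.val_rev]
    omega
  refine ⟨fun n => ∑ x, if φ x = n then w x else 0, ⟨group_complete hw φ, ?_⟩, ?_⟩
  · intro n
    rw [map_sum, h.kunneth, Fintype.sum_prod_type]
    refine Finset.sum_congr rfl fun m _ => Finset.sum_congr rfl fun l _ => ?_
    have h1 : φ (m, l) = n ↔ (m : ℕ) + l = n := by
      rw [Fin.ext_iff]
    by_cases h2 : (m : ℕ) + l = n
    · rw [if_pos h2, if_pos (h1.2 h2), hR]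
    · rw [if_neg h2, if_neg (fun h3 => h2 (h1.1 h3)), map_zero]
  · intro n
    change star (∑ x, if φ x = n then w x else 0) = ∑ x, if φ x = n.rev then w x else 0
    rw [star_sum]
    rw [← Equiv.sum_comp (Equiv.prodCongr Fin.revPerm Fin.revPerm)]
    refine Finset.sum_congr rfl fun x _ => ?_
    have h1 : (Equiv.prodCongr Fin.revPerm Fin.revPerm) x = (x.1.rev, x.2.rev) := rfl
    rw [h1, hφrev]
    by_cases h2 : (φ x).rev = n
    · rw [if_pos h2, hstar, Fin.rev_rev, Fin.rev_rev, if_pos]
      rw [← h2, Fin.rev_rev]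
    · rw [if_neg h2, if_neg, star_zero]
      intro h3; exact h2 (by rw [h3, Fin.rev_rev])

end SDCK
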